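import Mathlib

set_option autoImplicit false

namespace Pool.Agent.V11149.HeredFactor

open SimpleGraph

/-- a class of graphs on the vertex sets `Fin n`. -/
abbrev Cls := (n : ℕ) → SimpleGraph (Fin n) → Prop

def Her (A : Cls) : Prop :=
  ∀ (a b : ℕ) (G : SimpleGraph (Fin a)) (H : SimpleGraph (Fin b)) (f : H →g G),
    Function.Injective f → A a G → A b H

def In (A : Cls) {V : Type} (X : SimpleGraph V) : Prop :=
  ∃ (r : ℕ) (K : SimpleGraph (Fin r)), A r K ∧ Nonempty (X ≃g K)

lemma In_mono {A : Cls} (hA : Her A) {V W : Type} [Finite W] (X : SimpleGraph V)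
    (Y : SimpleGraph W) (f : Y →g X) (hf : Function.Injective f) (h : In A X) : In A Y := by
  obtain ⟨r, K, hK, ⟨e⟩⟩ := h
  have : Fintype W := Fintype.ofFinite W
  let e' := Y.overFinIso (n := Fintype.card W) rfl
  refine ⟨Fintype.card W, Y.overFin rfl, ?_, ⟨e'⟩⟩
  apply hA r _ K _ ((e.toHom.comp f).comp e'.symm.toHom)
  · exact (e.injective.comp hf).comp e'.symm.injective
  · exact hK

lemma In_self {A : Cls} {n : ℕ} (G : SimpleGraph (Fin n)) (h : A n G) : In A G :=
  ⟨n, G, h, ⟨SimpleGraph.Iso.refl⟩⟩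

/-- edgeless or at most two vertices. -/
def Q : Cls := fun n G => n ≤ 2 ∨ ∀ u v, ¬ G.Adj u v

/-- bipartite or at most four vertices. -/
def Q2 : Cls := fun n G => n ≤ 4 ∨ ∃ c : Fin n → Bool, ∀ u v, G.Adj u v → c u ≠ c v

lemma Q_her : Her Q := by
  intro a b G H f hf h
  rcases h with h | h
  · left
    have := Fintype.card_le_of_injective f hf
    simp only [Fintype.card_fin] at this
    omega
  · right
    intro u v huv
    exact h _ _ (f.map_adj huv)

lemma Q2_her : Her Q2 := by
  intro a b G H f hf h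
  rcases h with h | ⟨c, hc⟩
  · left
    have := Fintype.card_le_of_injective f hf
    simp only [Fintype.card_fin] at this
    omega
  · right
    exact ⟨fun v => c (f v), fun u v huv => hc _ _ (f.map_adj huv)⟩

lemma inQ {V : Type} [Finite V] (X : SimpleGraph V) :
    In Q X ↔ (Nat.card V ≤ 2 ∨ ∀ u v, ¬ X.Adj u v) := by
  constructor
  · rintro ⟨r, K, hK, ⟨e⟩⟩
    rcases hK with h | h
    · left
      rw [Nat.card_congr e.toEquiv, Nat.card_fin]; exact h
    · right
      intro u v huv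
      exact h _ _ (e.map_adj_iff.mpr huv)
  · intro h
    have : Fintype V := Fintype.ofFinite V
    let e := X.overFinIso (n := Fintype.card V) rfl
    refine ⟨Fintype.card V, X.overFin rfl, ?_, ⟨e⟩⟩
    rcases h with h | h
    · left
      rw [Nat.card_eq_fintype_card] at h; exact h
    · right
      intro u v huv
      exact h _ _ (e.symm.map_adj_iff.mpr huv)

lemma inQ2 {V : Type} [Finite V] (X : SimpleGraph V) :
    In Q2 X ↔ (Nat.card V ≤ 4 ∨ ∃ c : V → Bool, ∀ u v, X.Adj u v → c u ≠ c v) := by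
  constructor
  · rintro ⟨r, K, hK, ⟨e⟩⟩
    rcases hK with h | ⟨c, hc⟩
    · left
      rw [Nat.card_congr e.toEquiv, Nat.card_fin]; exact h
    · right
      exact ⟨fun v => c (e v), fun u v huv => hc _ _ (e.map_adj_iff.mpr huv)⟩
  · intro h
    have : Fintype V := Fintype.ofFinite V
    let e := X.overFinIso (n := Fintype.card V) rfl
    refine ⟨Fintype.card V, X.overFin rfl, ?_, ⟨e⟩⟩
    rcases h with h | ⟨c, hc⟩
    · left
      rw [Nat.card_eq_fintype_card] at h; exact h
    · right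
      exact ⟨fun v => c (e.symm v), fun u v huv => hc _ _ (e.symm.map_adj_iff.mpr huv)⟩

/-- a graph on one vertex lies in every class considered. -/
lemma In_one {A : Cls} (hA : Her A) (h1 : A 1 ⊥) {W : Type} [Finite W] [Subsingleton W]
    (Y : SimpleGraph W) : In A Y := by
  refine In_mono hA (⊥ : SimpleGraph (Fin 1)) Y ⟨fun _ => 0, ?_⟩ ?_ (In_self _ h1)
  · intro u v huv
    exact absurd (Subsingleton.elim u v) huv.ne
  · intro u v _
    exact Subsingleton.elim u v

/-- product hypothesis. -/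
def IsProd (P A B : Cls) : Prop :=
  ∀ (n : ℕ) (G : SimpleGraph (Fin n)), P n G ↔ ∃ S : Set (Fin n),
    In A (G.induce S) ∧ In B (G.induce Sᶜ)

lemma IsProd.swap {P A B : Cls} (h : IsProd P A B) : IsProd P B A := by
  intro n G
  rw [h n G]
  constructor
  · rintro ⟨S, h1, h2⟩
    exact ⟨Sᶜ, h2, by rw [compl_compl]; exact h1⟩
  · rintro ⟨S, h1, h2⟩
    exact ⟨Sᶜ, h2, by rw [compl_compl]; exact h1⟩

/-! ### irreducibility of `Q` -/

def path3 : SimpleGraph (Fin 3) where
  Adj u v := (u = 0 ∧ v ≠ 0) ∨ (u ≠ 0 ∧ v = 0)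
  symm := ⟨by decide⟩
  loopless := ⟨by decide⟩

lemma Q_irr_aux {A B : Cls} (hA : Her A) (hB : Her B) (hB1 : B 1 ⊥)
    (h : IsProd Q A B) (S : Set (Fin 3)) (hS : In A ((⊥ : SimpleGraph (Fin 3)).induce S))
    (x y : Fin 3) (hxy : x ≠ y) (hx : x ∈ S) (hy : y ∈ S) : False := by
  have h1 : Q 3 path3 := by
    rw [h 3 path3]
    refine ⟨{0}ᶜ, ?_, ?_⟩
    · refine In_mono hA _ _ ⟨fun v => if v.1 = 1 then ⟨x, hx⟩ else ⟨y, hy⟩, ?_⟩ ?_ hS
      · rintro ⟨u, hu⟩ ⟨v, hv⟩ huv
        exfalso
        rcases huv with h2 | h2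
        · exact hu h2.1
        · exact hv h2.2
      · rintro ⟨u, hu⟩ ⟨v, hv⟩ huv
        have hu' : u = 1 ∨ u = 2 := by
          have : ∀ u : Fin 3, u ≠ 0 → u = 1 ∨ u = 2 := by decide
          exact this u hu
        have hv' : v = 1 ∨ v = 2 := by
          have : ∀ u : Fin 3, u ≠ 0 → u = 1 ∨ u = 2 := by decide
          exact this v hv
        apply Subtype.ext
        change u = v
        rcases hu' with rfl | rfl <;> rcases hv' with rfl | rfl
        · rfl
        · exfalso
          have : (⟨x, hx⟩ : S) = ⟨y, hy⟩ := huv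
          exact hxy (congrArg Subtype.val this)
        · exfalso
          have : (⟨y, hy⟩ : S) = ⟨x, hx⟩ := huv
          exact hxy (congrArg Subtype.val this).symm
        · rfl
    · rw [compl_compl]
      exact In_one hB hB1 _
  rcases h1 with h2 | h2
  · omega
  · exact h2 0 1 (Or.inl ⟨rfl, by decide⟩)

lemma Q_irr (A B : Cls) (hA : Her A) (hB : Her B) (hA1 : A 1 ⊥) (hB1 : B 1 ⊥) :
    ¬ IsProd Q A B := by
  intro h
  have h0 : Q 3 ⊥ := Or.inr (fun u v huv => huv)
  obtain ⟨S, hS1, hS2⟩ := (h 3 ⊥).mp h0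
  -- two of the three vertices are on the same side
  have key : ∀ p q r : Prop, (p ∧ q) ∨ (p ∧ r) ∨ (q ∧ r) ∨ (¬p ∧ ¬q) ∨ (¬p ∧ ¬r) ∨ (¬q ∧ ¬r) := by
    intro p q r; tauto
  rcases key (0 ∈ S) (1 ∈ S) (2 ∈ S) with ⟨h1, h2⟩ | ⟨h1, h2⟩ | ⟨h1, h2⟩ | ⟨h1, h2⟩ | ⟨h1, h2⟩ |
    ⟨h1, h2⟩
  · exact Q_irr_aux hA hB hB1 h S hS1 0 1 (by decide) h1 h2
  · exact Q_irr_aux hA hB hB1 h S hS1 0 2 (by decide) h1 h2
  · exact Q_irr_aux hA hB hB1 h S hS1 1 2 (by decide) h1 h2
  · exact Q_irr_aux hB hA hA1 h.swap Sᶜ hS2 0 1 (by decide) h1 h2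
  · exact Q_irr_aux hB hA hA1 h.swap Sᶜ hS2 0 2 (by decide) h1 h2
  · exact Q_irr_aux hB hA hA1 h.swap Sᶜ hS2 1 2 (by decide) h1 h2

/-! ### irreducibility of `Q2` -/

/-- the complete bipartite graph with three vertices on each side. -/
def K33 : SimpleGraph (Fin 6) where
  Adj u v := u.val % 2 ≠ v.val % 2
  symm := ⟨by decide⟩
  loopless := ⟨by decide⟩

/-- a vertex joined to an edge with three further isolated vertices. -/
def H6 : SimpleGraph (Fin 6) where
  Adj u v := (u = 0 ∧ v ≠ 0) ∨ (u ≠ 0 ∧ v = 0) ∨ (u = 1 ∧ v = 2) ∨ (u = 2 ∧ v = 1)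
  symm := ⟨by decide⟩
  loopless := ⟨by decide⟩

/-- an edge joined to three isolated vertices. -/
def H5 : SimpleGraph (Fin 5) where
  Adj u v := (u.val < 2 ∧ v ≠ u) ∨ (v.val < 2 ∧ v ≠ u)
  symm := ⟨by decide⟩
  loopless := ⟨by decide⟩

lemma no_triangle {n : ℕ} (hn : 4 < n) (G : SimpleGraph (Fin n)) (h : Q2 n G) (x y z : Fin n)
    (hxy : G.Adj x y) (hyz : G.Adj y z) (hxz : G.Adj x z) : False := by
  rcases h with h | ⟨c, hc⟩
  · omega
  · have h1 := hc _ _ hxy
    have h2 := hc _ _ hyz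
    have h3 := hc _ _ hxz
    revert h1 h2 h3
    generalize c x = a
    generalize c y = b
    generalize c z = d
    revert a b d
    decide

/-- no part is empty. -/
lemma part_ne {A B : Cls} (hA : Her A) (hB : Her B) (hA1 : A 1 ⊥)
    (h : IsProd Q2 A B) (S : Set (Fin 6)) (hS2 : In B (K33.induce Sᶜ)) : S.Nonempty := by
  by_contra hne
  rw [Set.not_nonempty_iff_eq_empty] at hne
  subst hne
  have h1 : Q2 6 H6 := by
    rw [h 6 H6]
    refine ⟨{0}, In_one hA hA1 _, ?_⟩
    refine In_mono hB _ _ ⟨fun v => ⟨v.1, by simp⟩, ?_⟩ ?_ hS2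
    · rintro ⟨u, hu⟩ ⟨v, hv⟩ huv
      have hu' : u ≠ 0 := hu
      have hv' : v ≠ 0 := hv
      have key : ∀ u v : Fin 6, u ≠ 0 → v ≠ 0 → ((u = 0 ∧ v ≠ 0) ∨ (u ≠ 0 ∧ v = 0) ∨
          (u = 1 ∧ v = 2) ∨ (u = 2 ∧ v = 1)) → u.val % 2 ≠ v.val % 2 := by decide
      exact key u v hu' hv' huv
    · rintro ⟨u, hu⟩ ⟨v, hv⟩ huv
      have := congrArg (fun z : ((∅ : Set (Fin 6))ᶜ : Set (Fin 6)) => z.1) huv
      exact Subtype.ext this
  exact no_triangle (by norm_num) H6 h1 0 1 2 (Or.inl ⟨rfl, by decide⟩)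
    (Or.inr (Or.inr (Or.inl ⟨rfl, rfl⟩))) (Or.inl ⟨rfl, by decide⟩)

/-- the join of the two sides. -/
def joinG {n : ℕ} (G : SimpleGraph (Fin n)) (S : Set (Fin n)) : SimpleGraph (Fin n) where
  Adj u v := G.Adj u v ∨ (u ∈ S ∧ v ∉ S) ∨ (u ∉ S ∧ v ∈ S)
  symm := ⟨by
    rintro u v (h | h | h)
    · exact Or.inl h.symm
    · exact Or.inr (Or.inr ⟨h.2, h.1⟩)
    · exact Or.inr (Or.inl ⟨h.2, h.1⟩)⟩
  loopless := ⟨by
    rintro u (h | h | h)
    · exact G.loopless.irrefl u h
    · exact h.2 h.1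
    · exact h.1 h.2⟩

lemma part_indep {A B : Cls} (hA : Her A) (hB : Her B)
    (h : IsProd Q2 A B) (S : Set (Fin 6)) (hS1 : In A (K33.induce S))
    (hS2 : In B (K33.induce Sᶜ)) (z : Fin 6) (hz : z ∉ S) (x y : Fin 6) (hx : x ∈ S) (hy : y ∈ S) :
    ¬ K33.Adj x y := by
  intro hxy
  have h1 : Q2 6 (joinG K33 S) := by
    rw [h 6]
    refine ⟨S, ?_, ?_⟩
    · refine In_mono hA _ _ ⟨fun v => v, ?_⟩ (fun _ _ h => h) hS1
      rintro ⟨u, hu⟩ ⟨v, hv⟩ huv
      rcases huv with h2 | h2 | h2
      · exact h2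
      · exact absurd hv h2.2
      · exact absurd hu h2.1
    · refine In_mono hB _ _ ⟨fun v => v, ?_⟩ (fun _ _ h => h) hS2
      rintro ⟨u, hu⟩ ⟨v, hv⟩ huv
      rcases huv with h2 | h2 | h2
      · exact h2
      · exact absurd h2.1 hu
      · exact absurd h2.2 hv
  exact no_triangle (by norm_num) _ h1 x y z (Or.inl hxy) (Or.inr (Or.inl ⟨hy, hz⟩))
    (Or.inr (Or.inl ⟨hx, hz⟩))

/-- a class containing an edge and a class containing three isolated vertices. -/
lemma fin_aux {A B : Cls} (hA : Her A) (hB : Her B) (h : IsProd Q2 A B)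
    (hA2 : In A (⊤ : SimpleGraph (Fin 2))) (hB3 : In B (⊥ : SimpleGraph (Fin 3))) : False := by
  have h1 : Q2 5 H5 := by
    rw [h 5 H5]
    refine ⟨{v | v.val < 2}, ?_, ?_⟩
    · refine In_mono hA _ _ ⟨fun v => ⟨v.1.val, v.2⟩, ?_⟩ ?_ hA2
      · rintro ⟨u, hu⟩ ⟨v, hv⟩ huv
        rw [top_adj]
        intro h2
        have h3 := congrArg Fin.val h2
        have h3' : u.val = v.val := h3
        exact huv.ne (Subtype.ext (Fin.ext h3'))
      · rintro ⟨u, hu⟩ ⟨v, hv⟩ huv
        have h3 := congrArg Fin.val huv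
        have h3' : u.val = v.val := h3
        exact Subtype.ext (Fin.ext h3')
    · refine In_mono hB _ _ ⟨fun v => ⟨v.1.val - 2, by omega⟩, ?_⟩ ?_ hB3
      · rintro ⟨u, hu⟩ ⟨v, hv⟩ huv
        exfalso
        have hu' : ¬ u.val < 2 := hu
        have hv' : ¬ v.val < 2 := hv
        rcases huv with h2 | h2
        · exact hu' h2.1
        · exact hv' h2.1
      · rintro ⟨u, hu⟩ ⟨v, hv⟩ huv
        have hu' : ¬ u.val < 2 := hu
        have hv' : ¬ v.val < 2 := hv
        have h3 := congrArg Fin.val huv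
        have h3' : u.val - 2 = v.val - 2 := h3
        have h4 : u.val = v.val := by omega
        exact Subtype.ext (Fin.ext h4)
  exact no_triangle (by norm_num) H5 h1 0 1 2 (by left; decide) (by left; decide) (by left; decide)

lemma Q2_irr (A B : Cls) (hA : Her A) (hB : Her B) (hA1 : A 1 ⊥) (hB1 : B 1 ⊥) :
    ¬ IsProd Q2 A B := by
  intro h
  have h00 : ∀ u v : Fin 6, u.val % 2 ≠ v.val % 2 →
      decide (u.val % 2 = 0) ≠ decide (v.val % 2 = 0) := by decide
  have h0 : Q2 6 K33 := Or.inr ⟨fun v => decide (v.val % 2 = 0), fun u v h => h00 u v h⟩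
  obtain ⟨S, hS1, hS2⟩ := (h 6 K33).mp h0
  obtain ⟨s, hs⟩ := part_ne hA hB hA1 h S hS2
  obtain ⟨t, ht⟩ := part_ne hB hA hB1 h.swap Sᶜ (by rw [compl_compl]; exact hS1)
  have hin : ∀ x y, x ∈ S → y ∈ S → x.val % 2 = y.val % 2 := by
    intro x y hx hy
    by_contra hne
    exact part_indep hA hB h S hS1 hS2 t ht x y hx hy hne
  have hout : ∀ x y, x ∉ S → y ∉ S → x.val % 2 = y.val % 2 := by
    intro x y hx hy
    by_contra hne
    exact part_indep hB hA h.swap Sᶜ hS2 (by rw [compl_compl]; exact hS1) s (not_not.mpr hs)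
      x y hx hy hne
  -- both classes contain three isolated vertices
  have h3 : In A (⊥ : SimpleGraph (Fin 3)) ∧ In B (⊥ : SimpleGraph (Fin 3)) := by
    have hst : s.val % 2 ≠ t.val % 2 := by
      intro heq
      have hall : ∀ x : Fin 6, x.val % 2 = s.val % 2 := by
        intro x
        by_cases hx : x ∈ S
        · exact hin x s hx hs
        · rw [heq]; exact hout x t hx ht
      have h4 := hall 0
      have h5 := hall 1
      rw [← h5] at h4
      exact absurd h4 (by decide)
    have hS : ∀ x : Fin 6, x.val % 2 = s.val % 2 → x ∈ S := by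
      intro x hx
      by_contra hxS
      exact hst (hx.symm.trans (hout x t hxS ht))
    have hT : ∀ x : Fin 6, x.val % 2 = t.val % 2 → x ∈ Sᶜ := by
      intro x hx hxS
      exact hst ((hin s x hs hxS).trans hx)
    constructor
    · refine In_mono hA _ _ ⟨fun i => ⟨⟨2 * i.val + s.val % 2, by omega⟩, hS _ (by simp)⟩, ?_⟩ ?_ hS1
      · intro u v huv; exact absurd huv (fun h => h)
      · intro u v huv
        have h6 := congrArg (fun z : S => z.1.val) huv
        have h6' : 2 * u.val + s.val % 2 = 2 * v.val + s.val % 2 := h6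
        exact Fin.ext (by omega)
    · refine In_mono hB _ _ ⟨fun i => ⟨⟨2 * i.val + t.val % 2, by omega⟩, hT _ (by simp)⟩, ?_⟩ ?_ hS2
      · intro u v huv; exact absurd huv (fun h => h)
      · intro u v huv
        have h6 := congrArg (fun z : (Sᶜ : Set (Fin 6)) => z.1.val) huv
        have h6' : 2 * u.val + t.val % 2 = 2 * v.val + t.val % 2 := h6
        exact Fin.ext (by omega)
  -- one class contains an edge
  have h4 : Q2 4 ⊤ := Or.inl le_rfl
  obtain ⟨T, hT1, hT2⟩ := (h 4 ⊤).mp h4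
  have two : ∀ (C : Cls) (hC : Her C) (T : Set (Fin 4)) (x y : Fin 4), x ∈ T → y ∈ T → x ≠ y →
      In C ((⊤ : SimpleGraph (Fin 4)).induce T) → In C (⊤ : SimpleGraph (Fin 2)) := by
    intro C hC T x y hx hy hxy hT
    have key2 : ∀ u v : Fin 2, u ≠ v → (u = 0 ∧ v = 1) ∨ (u = 1 ∧ v = 0) := by decide
    refine In_mono hC _ _ ⟨fun i => if i = 0 then ⟨x, hx⟩ else ⟨y, hy⟩, ?_⟩ ?_ hT
    · intro u v huv
      rw [top_adj] at huv
      have := key2 u v huv
      rcases this with ⟨rfl, rfl⟩ | ⟨rfl, rfl⟩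
      · exact hxy
      · exact hxy.symm
    · intro u v huv
      by_contra hne
      have := key2 u v hne
      rcases this with ⟨rfl, rfl⟩ | ⟨rfl, rfl⟩
      · have h7 : (⟨x, hx⟩ : T) = ⟨y, hy⟩ := huv
        exact hxy (congrArg Subtype.val h7)
      · have h7 : (⟨y, hy⟩ : T) = ⟨x, hx⟩ := huv
        exact hxy (congrArg Subtype.val h7).symm
  have key : ∀ p q r : Prop, (p ∧ q) ∨ (p ∧ r) ∨ (q ∧ r) ∨ (¬p ∧ ¬q) ∨ (¬p ∧ ¬r) ∨ (¬q ∧ ¬r) := by
    intro p q r; tauto
  rcases key (0 ∈ T) (1 ∈ T) (2 ∈ T) with ⟨h1, h2⟩ | ⟨h1, h2⟩ | ⟨h1, h2⟩ | ⟨h1, h2⟩ | ⟨h1, h2⟩ |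
    ⟨h1, h2⟩
  · exact fin_aux hA hB h (two A hA T 0 1 h1 h2 (by decide) hT1) h3.2
  · exact fin_aux hA hB h (two A hA T 0 2 h1 h2 (by decide) hT1) h3.2
  · exact fin_aux hA hB h (two A hA T 1 2 h1 h2 (by decide) hT1) h3.2
  · exact fin_aux hB hA h.swap (two B hB Tᶜ 0 1 h1 h2 (by decide) hT2) h3.1
  · exact fin_aux hB hA h.swap (two B hB Tᶜ 0 2 h1 h2 (by decide) hT2) h3.1
  · exact fin_aux hB hA h.swap (two B hB Tᶜ 1 2 h1 h2 (by decide) hT2) h3.1

/-! ### equality of the products -/

def Qs : Fin 2 → Cls := fun j => if j = 0 then Q else Q2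

lemma prod_eq (n : ℕ) (G : SimpleGraph (Fin n)) :
    (∃ c : Fin n → Fin 3, ∀ i : Fin 3, In Q (G.induce {v | c v = i})) ↔
    (∃ c : Fin n → Fin 2, ∀ j : Fin 2, In (Qs j) (G.induce {v | c v = j})) := by
  constructor
  · rintro ⟨c, hc⟩
    have hc' : ∀ i : Fin 3, Nat.card {v | c v = i} ≤ 2 ∨ ∀ u v, c u = i → c v = i → ¬ G.Adj u v := by
      intro i
      rcases (inQ _).mp (hc i) with h | h
      · exact Or.inl h
      · right
        intro u v hu hv huv
        exact h ⟨u, hu⟩ ⟨v, hv⟩ huv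
    -- pigeonhole
    obtain ⟨i, j, k, hij, hk, hall, htype⟩ : ∃ i j k : Fin 3, i ≠ j ∧ (k ≠ i ∧ k ≠ j) ∧
        (∀ x : Fin 3, x ≠ k → x = i ∨ x = j) ∧
        ((Nat.card {v | c v = i} ≤ 2 ∧ Nat.card {v | c v = j} ≤ 2) ∨
          ((∀ u v, c u = i → c v = i → ¬ G.Adj u v) ∧ (∀ u v, c u = j → c v = j → ¬ G.Adj u v))) := by
      rcases hc' 0 with h0 | h0 <;> rcases hc' 1 with h1 | h1 <;> rcases hc' 2 with h2 | h2
      · exact ⟨0, 1, 2, by decide, by decide, by decide, Or.inl ⟨h0, h1⟩⟩
      · exact ⟨0, 1, 2, by decide, by decide, by decide, Or.inl ⟨h0, h1⟩⟩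
      · exact ⟨0, 2, 1, by decide, by decide, by decide, Or.inl ⟨h0, h2⟩⟩
      · exact ⟨1, 2, 0, by decide, by decide, by decide, Or.inr ⟨h1, h2⟩⟩
      · exact ⟨1, 2, 0, by decide, by decide, by decide, Or.inl ⟨h1, h2⟩⟩
      · exact ⟨0, 2, 1, by decide, by decide, by decide, Or.inr ⟨h0, h2⟩⟩
      · exact ⟨0, 1, 2, by decide, by decide, by decide, Or.inr ⟨h0, h1⟩⟩
      · exact ⟨0, 1, 2, by decide, by decide, by decide, Or.inr ⟨h0, h1⟩⟩
    refine ⟨fun v => if c v = k then 0 else 1, ?_⟩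
    intro x
    have hx : x = 0 ∨ x = 1 := by revert x; decide
    rcases hx with rfl | rfl
    · change In Q _
      rw [inQ]
      rcases hc' k with h | h
      · left
        have : {v | (if c v = k then (0 : Fin 2) else 1) = 0} = {v | c v = k} := by
          ext v
          by_cases hv : c v = k <;> simp [hv]
        rw [this]; exact h
      · right
        rintro ⟨u, hu⟩ ⟨v, hv⟩ huv
        have hu' : c u = k := by
          by_contra hne
          simp [hne] at hu
        have hv' : c v = k := by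
          by_contra hne
          simp [hne] at hv
        exact h u v hu' hv' huv
    · change In Q2 _
      rw [inQ2]
      rcases htype with ⟨h1, h2⟩ | ⟨h1, h2⟩
      · left
        have hset : {v | (if c v = k then (0 : Fin 2) else 1) = 1} ⊆ {v | c v = i} ∪ {v | c v = j} := by
          intro v hv
          have hv' : c v ≠ k := by
            intro hne
            simp [hne] at hv
          exact hall _ hv'
        have h3 := Set.ncard_le_ncard hset (Set.toFinite _)
        have h4 := Set.ncard_union_le {v | c v = i} {v | c v = j}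
        have h5 : Nat.card {v | (if c v = k then (0 : Fin 2) else 1) = 1} =
            {v | (if c v = k then (0 : Fin 2) else 1) = 1}.ncard := rfl
        have h6 : Nat.card {v | c v = i} = {v | c v = i}.ncard := rfl
        have h7 : Nat.card {v | c v = j} = {v | c v = j}.ncard := rfl
        rw [h5]
        omega
      · right
        refine ⟨fun v => decide (c v.1 = i), ?_⟩
        rintro ⟨u, hu⟩ ⟨v, hv⟩ huv
        have hu' : c u ≠ k := by
          intro hne
          simp [hne] at hu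
        have hv' : c v ≠ k := by
          intro hne
          simp [hne] at hv
        simp only [ne_eq, decide_eq_decide]
        intro heq
        by_cases hui : c u = i
        · exact h1 u v hui (heq.mp hui) huv
        · have hvi : ¬ c v = i := fun h => hui (heq.mpr h)
          have huj : c u = j := (hall _ hu').resolve_left hui
          have hvj : c v = j := (hall _ hv').resolve_left hvi
          exact h2 u v huj hvj huv
  · rintro ⟨c, hc⟩
    have h0 : In Q (G.induce {v | c v = 0}) := hc 0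
    have h1 : In Q2 (G.induce {v | c v = 1}) := hc 1
    rw [inQ2] at h1
    -- a splitting of the second part
    obtain ⟨d, hd⟩ : ∃ d : Fin n → Bool, ∀ b : Bool,
        Nat.card {v | c v = 1 ∧ d v = b} ≤ 2 ∨
          ∀ u v, (c u = 1 ∧ d u = b) → (c v = 1 ∧ d v = b) → ¬ G.Adj u v := by
      rcases h1 with h1 | ⟨c', hc'⟩
      · have e := Finite.equivFin {v | c v = 1}
        refine ⟨fun v => if h : c v = 1 then decide ((e ⟨v, h⟩).val < 2) else true, ?_⟩
        intro b
        left
        have hval : ∀ v : {v | c v = 1 ∧ (if h : c v = 1 then decide ((e ⟨v, h⟩).val < 2) else true) = b},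
            decide ((e ⟨v.1, v.2.1⟩).val < 2) = b := by
          rintro ⟨v, hv1, hv2⟩
          rw [dif_pos hv1] at hv2
          exact hv2
        let F : {v | c v = 1 ∧
            (if h : c v = 1 then decide ((e ⟨v, h⟩).val < 2) else true) = b} → Fin 2 := fun v =>
            ⟨(e ⟨v.1, v.2.1⟩).val % 2, Nat.mod_lt _ (by norm_num)⟩
        suffices hF : Function.Injective F by
          have h9 := Nat.card_le_card_of_injective F hF
          rw [Nat.card_fin] at h9
          exact h9
        intro u v huv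
        have hu := hval u
        have hv := hval v
        have h2' := congrArg Fin.val huv
        have h2 : (e ⟨u.1, u.2.1⟩).val % 2 = (e ⟨v.1, v.2.1⟩).val % 2 := h2'
        have h3 := (e ⟨u.1, u.2.1⟩).isLt
        have h4 := (e ⟨v.1, v.2.1⟩).isLt
        have h5 : (e ⟨u.1, u.2.1⟩).val = (e ⟨v.1, v.2.1⟩).val := by
          have hub : decide ((e ⟨u.1, u.2.1⟩).val < 2) = decide ((e ⟨v.1, v.2.1⟩).val < 2) :=
            hu.trans hv.symm
          rw [decide_eq_decide] at hub
          by_cases hlt : (e ⟨u.1, u.2.1⟩).val < 2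
          · have := hub.mp hlt
            omega
          · have h6 : ¬ (e ⟨v.1, v.2.1⟩).val < 2 := fun h => hlt (hub.mpr h)
            omega
        have h6 := congrArg Subtype.val (e.injective (Fin.ext h5))
        exact Subtype.ext h6
      · refine ⟨fun v => if h : c v = 1 then c' ⟨v, h⟩ else true, ?_⟩
        intro b
        right
        rintro u v ⟨hu1, hu2⟩ ⟨hv1, hv2⟩ huv
        beta_reduce at hu2 hv2
        rw [dif_pos hu1] at hu2
        rw [dif_pos hv1] at hv2
        exact hc' ⟨u, hu1⟩ ⟨v, hv1⟩ huv (hu2.trans hv2.symm)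
    refine ⟨fun v => if c v = 0 then 0 else if d v = true then 1 else 2, ?_⟩
    intro i
    have hc01 : ∀ v, c v = 0 ∨ c v = 1 := by
      intro v
      generalize c v = x
      revert x; decide
    rw [inQ]
    have hi : i = 0 ∨ i = 1 ∨ i = 2 := by revert i; decide
    have transfer : ∀ (b : Bool) (i : Fin 3),
        (∀ v, ((if c v = 0 then (0 : Fin 3) else if d v = true then 1 else 2) = i) ↔
          (c v = 1 ∧ d v = b)) →
        (Nat.card {v | (if c v = 0 then (0 : Fin 3) else if d v = true then 1 else 2) = i} ≤ 2 ∨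
          ∀ u v : {v | (if c v = 0 then (0 : Fin 3) else if d v = true then 1 else 2) = i},
            ¬ (G.induce {v | (if c v = 0 then (0 : Fin 3) else if d v = true then 1 else 2) = i}).Adj u v) := by
      intro b i hset
      rcases hd b with h | h
      · left
        have : {v | (if c v = 0 then (0 : Fin 3) else if d v = true then 1 else 2) = i} =
            {v | c v = 1 ∧ d v = b} := by
          ext v; exact hset v
        rw [this]; exact h
      · right
        rintro ⟨u, hu⟩ ⟨v, hv⟩ huv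
        exact h u v ((hset u).mp hu) ((hset v).mp hv) huv
    rcases hi with rfl | rfl | rfl
    · rw [inQ] at h0
      have hset : ∀ v, ((if c v = 0 then (0 : Fin 3) else if d v = true then 1 else 2) = 0) ↔ c v = 0 := by
        intro v
        by_cases h : c v = 0
        · simp [h]
        · by_cases h' : d v = true <;> simp [h, h']
      rcases h0 with h | h
      · left
        have : {v | (if c v = 0 then (0 : Fin 3) else if d v = true then 1 else 2) = 0} =
            {v | c v = 0} := by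
          ext v; exact hset v
        rw [this]; exact h
      · right
        rintro ⟨u, hu⟩ ⟨v, hv⟩ huv
        exact h ⟨u, (hset u).mp hu⟩ ⟨v, (hset v).mp hv⟩ huv
    · apply transfer true 1
      intro v
      rcases hc01 v with h | h
      · simp [h]
      · by_cases h' : d v = true <;> simp [h, h']
    · apply transfer false 2
      intro v
      rcases hc01 v with h | h
      · simp [h]
      · by_cases h' : d v = true <;> simp [h, h']

end Pool.Agent.V11149.HeredFactor
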