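import Pool.Agent.V11149.ThreeGraph3

set_option autoImplicit false

namespace Pool.Agent.V11149.ThreeGraph

theorem extend_perm {n : ℕ} (S : Finset (Fin n)) (p : Fin n → Fin n) (h : Set.InjOn p (S : Set (Fin n))) :
    ∃ π : Equiv.Perm (Fin n), ∀ x ∈ S, π x = p x := by
  let q : {x // x ∈ S} → {y // y ∈ S.image p} := fun x => ⟨p x.1, Finset.mem_image_of_mem _ x.2⟩
  have hq : Function.Bijective q := by
    constructor
    · intro a b hab
      apply Subtype.ext
      exact h a.2 b.2 (by simpa [q] using hab)
    · rintro ⟨y, hy⟩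
      rw [Finset.mem_image] at hy
      obtain ⟨x, hx, rfl⟩ := hy
      exact ⟨⟨x, hx⟩, rfl⟩
  refine ⟨Equiv.extendSubtype (Equiv.ofBijective q hq), fun x hx => ?_⟩
  rw [Equiv.extendSubtype_apply_of_mem _ x hx]
  rfl

/-- embedding -/
def emb {n : ℕ} (c : Fin n → Bool) (F : Fin n → Fin n → ZMod 2) (v : Fin n) : Bt n :=
  (c v, v, fun w => if c v = false ∧ c w = true then F v w else 0)

theorem emb_inj {n : ℕ} (c : Fin n → Bool) (F : Fin n → Fin n → ZMod 2) :
    Function.Injective (emb c F) := by
  intro a b h
  unfold emb at h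
  simp only [Prod.mk.injEq] at h
  exact h.2.1

theorem gB_emb {n : ℕ} (c : Fin n → Bool) (F : Fin n → Fin n → ZMod 2) (v w : Fin n)
    (hv : c v = false) (hw : c w = true) : gB (emb c F v) (emb c F w) = F v w := by
  unfold gB emb
  simp [hv, hw]

theorem mem_iff_emb {n : ℕ} (c : Fin n → Bool) (H : Finset (Finset (Fin n))) (hT : ∀ e ∈ H, T c e)
    (F : Fin n → Fin n → ZMod 2)
    (hF : ∀ i i' k k', i ≠ i' → k ≠ k' → c i = false → c i' = false →
      c k = true → c k' = true → hh H i i' k k' = F i k + F i' k + F i k' + F i' k')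
    (e : Finset (Fin n)) :
    e ∈ H ↔ e.map ⟨emb c F, emb_inj c F⟩ ∈ HG (cB (n := n)) gB := by
  have hTm : T (cB (n := n)) (e.map ⟨emb c F, emb_inj c F⟩) ↔ T c e := by
    unfold T
    rw [Finset.card_map]
    apply and_congr_right
    intro _
    constructor
    · intro h v hv
      have := h (emb c F v) (Finset.mem_map_of_mem ⟨emb c F, emb_inj c F⟩ hv)
      rw [Finset.filter_map, Finset.card_map] at this
      rw [← this]
      rfl
    · intro h v hv
      rw [Finset.mem_map] at hv
      obtain ⟨u, hu, rfl⟩ := hv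
      have := h u hu
      rw [Finset.filter_map, Finset.card_map]
      rw [← this]
      rfl
  by_cases hTe : T c e
  · obtain ⟨p, p', q, q', hpp, hqq, cp, cp', cq, cq', rfl⟩ := (T_iff c e).1 hTe
    have hmap : ({p, p', q, q'} : Finset (Fin n)).map ⟨emb c F, emb_inj c F⟩ =
        {emb c F p, emb c F p', emb c F q, emb c F q'} := by
      simp [Finset.map_insert]
    rw [hmap]
    rw [mem_HG_mk (cB (n := n)) gB gB_symm (b := false) (fun h => hpp (emb_inj c F h))
      (fun h => hqq (emb_inj c F h)) cp cp' (by simpa [cB, emb] using cq) (by simpa [cB, emb] using cq')]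
    rw [gB_emb c F p q cp cq, gB_emb c F p' q cp' cq, gB_emb c F p q' cp cq', gB_emb c F p' q' cp' cq']
    have := hF p p' q q' hpp hqq cp cp' cq cq'
    rw [← this]
    unfold hh
    constructor
    · intro h; rw [if_pos h]
    · intro h; by_contra hc; rw [if_neg hc] at h; exact absurd h (by decide)
  · constructor
    · intro h; exact absurd (hT e h) hTe
    · intro h; exact absurd (hTm.1 (HG_T _ _ _ h)) hTe

/-- main combinatorial statement with classes given by a Boolean function -/
theorem main {n : ℕ} (c : Fin n → Bool) (H : Finset (Finset (Fin n))) (hT : ∀ e ∈ H, T c e)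
    (h5 : ∀ S : Finset (Fin n), S.card = 5 → (∀ v ∈ S, (S.filter (fun w => c v = c w)).card ≤ 3) →
      Even (H.filter (fun e => e ⊆ S)).card) :
    ∃ f : Fin n ↪ Bt n, (∀ x, cB (f x) = c x) ∧
      (∀ e : Finset (Fin n), e ∈ H ↔ e.map f ∈ HG (cB (n := n)) gB) ∧
      ∀ (S : Finset (Fin n)) (p : Fin n → Fin n),
        Set.InjOn p (S : Set (Fin n)) →
        (∀ x ∈ S, ∀ y ∈ S, c x = c y ↔ c (p x) = c (p y)) →
        (∀ e ⊆ S, e ∈ H ↔ e.image p ∈ H) →
        ∃ (s : Bool) (σ : Equiv.Perm (Bt n)), (∀ x, cB (σ x) = xor (cB x) s) ∧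
          (∀ e : Finset (Bt n), e ∈ HG (cB (n := n)) gB ↔ e.map σ.toEmbedding ∈ HG (cB (n := n)) gB) ∧
          ∀ x ∈ S, σ (f x) = f (p x) := by
  obtain ⟨F, hF⟩ := exists_F c H hT h5
  refine ⟨⟨emb c F, emb_inj c F⟩, fun x => rfl, mem_iff_emb c H hT F hF, ?_⟩
  intro S p hp hc he
  obtain ⟨π, hπ⟩ := extend_perm S p hp
  -- swap bit
  obtain ⟨s, hs⟩ : ∃ s : Bool, ∀ x ∈ S, c (p x) = xor (c x) s := by
    by_cases h : ∃ v ∈ S, c (p v) ≠ c v
    · obtain ⟨v, hv, hne⟩ := h
      refine ⟨true, fun x hx => ?_⟩
      have := hc v hv x hx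
      revert this hne
      cases c v <;> cases c x <;> cases c (p v) <;> cases c (p x) <;> simp
    · push Not at h
      exact ⟨false, fun x hx => by rw [h x hx]; simp⟩
  let χ : Fin n → Fin n → ZMod 2 := fun v w => if c v = false ∧ c w = true then F v w else 0
  let G : Fin n → Fin n → ZMod 2 := fun v w => χ v w + χ w v
  have hGg : ∀ v w, gB (emb c F v) (emb c F w) = G v w := fun v w => rfl
  have hGs : ∀ v w, G v w = G w v := fun v w => by simp only [G]; ring
  -- coboundary of G detects hyperedges for any arrangement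
  have hdet : ∀ (b : Bool) (v v' w w' : Fin n), v ≠ v' → w ≠ w' → c v = b → c v' = b → c w = !b → c w' = !b →
      (({v, v', w, w'} : Finset (Fin n)) ∈ H ↔ G v w + G v' w + G v w' + G v' w' = 1) := by
    intro b v v' w w' hvv hww cv cv' cw cw'
    rw [mem_iff_emb c H hT F hF]
    have hmap : ({v, v', w, w'} : Finset (Fin n)).map ⟨emb c F, emb_inj c F⟩ =
        {emb c F v, emb c F v', emb c F w, emb c F w'} := by
      simp [Finset.map_insert]
    rw [hmap, mem_HG_mk (cB (n := n)) gB gB_symm (b := b) (fun h => hvv (emb_inj c F h))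
      (fun h => hww (emb_inj c F h)) cv cv' cw cw']
    rw [hGg, hGg, hGg, hGg]
  have hEcoc : ∀ v v' w w', (v ∈ S ∧ c v = false) → (v' ∈ S ∧ c v' = false) → (w ∈ S ∧ c w = true) →
      (w' ∈ S ∧ c w' = true) →
      (G (p v) (p w) + G v w) + (G (p v') (p w) + G v' w) + (G (p v) (p w') + G v w') +
        (G (p v') (p w') + G v' w') = 0 := by
    rintro v v' w w' ⟨vS, cv⟩ ⟨vS', cv'⟩ ⟨wS, cw⟩ ⟨wS', cw'⟩
    by_cases hvv : v = v'
    · subst hvv
      have : ∀ a b : ZMod 2, a + a + b + b = 0 := by decide
      exact this _ _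
    · by_cases hww : w = w'
      · subst hww
        have : ∀ a b : ZMod 2, a + b + a + b = 0 := by decide
        exact this _ _
      · have h1 := hdet false v v' w w' hvv hww cv cv' (by simpa using cw) (by simpa using cw')
        have hpv : p v ≠ p v' := fun h => hvv (hp vS vS' h)
        have hpw : p w ≠ p w' := fun h => hww (hp wS wS' h)
        have h2 := hdet s (p v) (p v') (p w) (p w') hpv hpw (by rw [hs v vS, cv]; simp)
          (by rw [hs v' vS', cv']; simp) (by rw [hs w wS, cw]; simp) (by rw [hs w' wS', cw']; simp)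
        have h3 := he {v, v', w, w'} (by
          intro z hz
          simp only [Finset.mem_insert, Finset.mem_singleton] at hz
          rcases hz with rfl | rfl | rfl | rfl <;> assumption)
        have himg : ({v, v', w, w'} : Finset (Fin n)).image p = {p v, p v', p w, p w'} := by
          simp [Finset.image_insert]
        rw [himg, h1, h2] at h3
        revert h3
        generalize G v w = a1
        generalize G v' w = a2
        generalize G v w' = a3
        generalize G v' w' = a4
        generalize G (p v) (p w) = b1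
        generalize G (p v') (p w) = b2
        generalize G (p v) (p w') = b3
        generalize G (p v') (p w') = b4
        intro h3
        have key : ∀ X Y : ZMod 2, (X = 1 ↔ Y = 1) → X = Y := by decide
        have := key _ _ h3
        have e1 : b1 + a1 + (b2 + a2) + (b3 + a3) + (b4 + a4) =
          (a1 + a2 + a3 + a4) + (b1 + b2 + b3 + b4) := by ring
        rw [e1, this]; exact add_self2 _
  obtain ⟨a, b, hab⟩ := split (fun v => v ∈ S ∧ c v = false) (fun w => w ∈ S ∧ c w = true)
    (fun v w => G (p v) (p w) + G v w) hEcoc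
  -- e function
  let ee : Fin n → Fin n → ZMod 2 := fun x y => χ (π x) (π y) + χ x y
  let M : Bool → Fin n → Fin n → ZMod 2 := fun bb x y =>
    if bb = false then
      (if x ∈ S ∧ c x = false then ee x y
        else (if y ∈ S ∧ c y = true then ee y x else 0) + (a x + b y))
    else
      (if x ∈ S ∧ c x = true then ee x y
        else (if y ∈ S ∧ c y = false then ee y x + (a y + b x) else 0))
  refine ⟨s, sig s π M, fun x => rfl, ?_, ?_⟩
  · apply HG_map cB gB gB_symm (sig s π M) s (fun x => rfl) (fun q => a q.2.1) (fun q => b q.2.1)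
    rintro ⟨c1, i, χ1⟩ ⟨c2, k, χ2⟩ h1 h2
    simp only [cB] at h1 h2
    subst h1 h2
    rw [gB_sig]
    congr 1
    simp only [M, if_true, Bool.true_eq_false, if_false]
    by_cases hi : i ∈ S ∧ c i = false
    · by_cases hk : k ∈ S ∧ c k = true
      · simp only [hi, hk, and_self, if_true]
        have := hab i k hi hk
        simp only [ee]
        rw [hπ i hi.1, hπ k hk.1]
        simp only [G] at this
        rw [← this]; ring
      · rw [if_pos hi, if_neg hk, if_pos hi]
        have : ∀ x y z : ZMod 2, x + (x + (y + z)) = y + z := by decide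
        exact this _ _ _
    · by_cases hk : k ∈ S ∧ c k = true
      · rw [if_neg hi, if_pos hk, if_pos hk]
        have : ∀ x y z : ZMod 2, x + (y + z) + x = y + z := by decide
        exact this _ _ _
      · rw [if_neg hi, if_neg hk, if_neg hk, if_neg hi]
        simp
  · intro x hx
    change sig s π M (emb c F x) = emb c F (p x)
    have h1 : ∀ y, M (c x) x y = ee x y := by
      intro y
      cases hcx : c x
      · simp only [M, if_true]
        rw [if_pos ⟨hx, hcx⟩]
      · simp only [M, Bool.true_eq_false, if_false]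
        rw [if_pos ⟨hx, hcx⟩]
    have h2 : sig s π M (emb c F x) = (xor (c x) s, π x, fun j => χ x (π.symm j) + M (c x) x (π.symm j)) := rfl
    rw [h2]
    have h3 : emb c F (p x) = (c (p x), p x, χ (p x)) := rfl
    rw [h3, hs x hx, hπ x hx]
    congr 2
    funext j
    rw [h1]
    simp only [ee]
    rw [hπ x hx, Equiv.apply_symm_apply]
    have : ∀ x y : ZMod 2, x + (y + x) = y := by decide
    exact this _ _

end Pool.Agent.V11149.ThreeGraph
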