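import Mathlib

set_option autoImplicit false

namespace Pool.Agent.V11149.Birkhoff

open Finset

lemma card_sigma_filter {I : Type*} [Fintype I] [DecidableEq I] (r : I → ℕ) (P : I → Prop)
    [DecidablePred P] : (univ.filter (fun x : (Σ i, Fin (r i)) => P x.1)).card =
      ∑ i with P i, r i := by
  have : (univ.filter (fun x : (Σ i, Fin (r i)) => P x.1)) =
      (univ.filter P).sigma (fun i => (univ : Finset (Fin (r i)))) := by
    ext x; simp
  rw [this, Finset.card_sigma]
  simp

/-- a transportation matrix with prescribed margins and support, from Hall's theorem. -/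
theorem transport {I J : Type*} [Fintype I] [Fintype J] [DecidableEq I] [DecidableEq J]
    (r : I → ℕ) (s : J → ℕ) (R : I → J → Prop) [∀ i, DecidablePred (R i)]
    (hsum : ∑ i, r i = ∑ j, s j)
    (hall : ∀ X : Finset I, ∑ i ∈ X, r i ≤ ∑ j with (∃ i ∈ X, R i j), s j) :
    ∃ A : I → J → ℕ, (∀ i, ∑ j, A i j = r i) ∧ (∀ j, ∑ i, A i j = s j) ∧
      ∀ i j, A i j ≠ 0 → R i j := by
  classical
  obtain ⟨f, hinj, hf⟩ := (Finset.all_card_le_biUnion_card_iff_exists_injective
    (fun x : (Σ i, Fin (r i)) => univ.filter (fun y : (Σ j, Fin (s j)) => R x.1 y.1))).mp (by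
      intro S
      let X := S.image Sigma.fst
      have h1 : S.card ≤ ∑ i ∈ X, r i := by
        have h2 : S ⊆ univ.filter (fun x : (Σ i, Fin (r i)) => x.1 ∈ X) := by
          intro x hx
          simp only [Finset.mem_filter, Finset.mem_univ, true_and]
          exact Finset.mem_image_of_mem _ hx
        refine (Finset.card_le_card h2).trans ?_
        rw [card_sigma_filter r (fun i => i ∈ X)]
        apply le_of_eq
        congr 1
        ext i; simp
      have h3 : (S.biUnion (fun x => univ.filter (fun y : (Σ j, Fin (s j)) => R x.1 y.1))) =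
          univ.filter (fun y : (Σ j, Fin (s j)) => ∃ i ∈ X, R i y.1) := by
        ext y
        simp only [Finset.mem_biUnion, Finset.mem_filter, Finset.mem_univ, true_and, X,
          Finset.mem_image]
        constructor
        · rintro ⟨x, hx, hR⟩
          exact ⟨x.1, ⟨x, hx, rfl⟩, hR⟩
        · rintro ⟨i, ⟨x, hx, rfl⟩, hR⟩
          exact ⟨x, hx, hR⟩
      rw [h3, card_sigma_filter s (fun j => ∃ i ∈ X, R i j)]
      exact h1.trans (hall X))
  have hcard : Fintype.card (Σ i, Fin (r i)) = Fintype.card (Σ j, Fin (s j)) := by
    rw [Fintype.card_sigma, Fintype.card_sigma]; simpa using hsum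
  have hbij : Function.Bijective f := (Fintype.bijective_iff_injective_and_card f).mpr ⟨hinj, hcard⟩
  refine ⟨fun i j => (univ.filter (fun x : (Σ i, Fin (r i)) => x.1 = i ∧ (f x).1 = j)).card,
    ?_, ?_, ?_⟩
  · intro i
    have h1 := Finset.card_eq_sum_card_fiberwise (s := univ.filter (fun x : (Σ i, Fin (r i)) => x.1 = i))
      (t := (univ : Finset J)) (f := fun x => (f x).1) (fun x _ => Finset.mem_coe.mpr (Finset.mem_univ _))
    simp only [Finset.filter_filter] at h1
    rw [← h1, card_sigma_filter r (fun i' => i' = i)]
    rw [Finset.filter_eq' univ i, if_pos (Finset.mem_univ _), Finset.sum_singleton]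
  · intro j
    have h1 := Finset.card_eq_sum_card_fiberwise
      (s := univ.filter (fun x : (Σ i, Fin (r i)) => (f x).1 = j))
      (t := (univ : Finset I)) (f := fun x => x.1) (fun x _ => Finset.mem_coe.mpr (Finset.mem_univ _))
    simp only [Finset.filter_filter] at h1
    have h2 : ∑ i, (univ.filter (fun x : (Σ i, Fin (r i)) => x.1 = i ∧ (f x).1 = j)).card =
        ∑ i, (univ.filter (fun x : (Σ i, Fin (r i)) => (f x).1 = j ∧ x.1 = i)).card := by
      refine Finset.sum_congr rfl (fun i _ => ?_)
      congr 1
      ext x; simp [and_comm]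
    rw [h2, ← h1]
    have h3 : (univ.filter (fun x : (Σ i, Fin (r i)) => (f x).1 = j)).card =
        (univ.filter (fun y : (Σ j, Fin (s j)) => y.1 = j)).card := by
      apply Finset.card_bij (fun x _ => f x)
      · intro x hx; simpa using hx
      · intro x _ y _ h; exact hinj h
      · intro y hy
        obtain ⟨x, rfl⟩ := hbij.2 y
        exact ⟨x, by simpa using hy, rfl⟩
    rw [h3, card_sigma_filter s (fun j' => j' = j)]
    rw [Finset.filter_eq' univ j, if_pos (Finset.mem_univ _), Finset.sum_singleton]
  · intro i j h
    obtain ⟨x, hx⟩ := Finset.card_pos.mp (Nat.pos_of_ne_zero h)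
    simp only [Finset.mem_filter, Finset.mem_univ, true_and] at hx
    have := hf x
    simp only [Finset.mem_filter, Finset.mem_univ, true_and] at this
    rw [hx.1, hx.2] at this
    exact this

/-- a nonnegative integer matrix with all margins `k` is supported by `k` bijections covering its
support. -/
theorem birkhoff {I J : Type*} [Fintype I] [Fintype J] [DecidableEq I] [DecidableEq J] (k : ℕ) :
    ∀ A : I → J → ℕ, (∀ i, ∑ j, A i j = k) → (∀ j, ∑ i, A i j = k) →
    ∃ σ : Fin k → (I ≃ J), (∀ l i, A i (σ l i) ≠ 0) ∧ ∀ i j, A i j ≠ 0 → ∃ l, σ l i = j := by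
  induction k with
  | zero =>
    intro A hr _
    refine ⟨fun l => l.elim0, fun l => l.elim0, fun i j h => ?_⟩
    exfalso
    have := Finset.sum_eq_zero_iff.mp (hr i) j (Finset.mem_univ _)
    exact h this
  | succ k ih =>
    intro A hr hc
    have htot : (k + 1) * Fintype.card I = (k + 1) * Fintype.card J := by
      have h1 : ∑ i, ∑ j, A i j = ∑ j, ∑ i, A i j := Finset.sum_comm
      simp only [hr, hc, Finset.sum_const, Finset.card_univ, smul_eq_mul] at h1
      linarith
    have hcard : Fintype.card I = Fintype.card J := Nat.eq_of_mul_eq_mul_left (Nat.succ_pos k) htot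
    obtain ⟨f, hinj, hf⟩ := (Finset.all_card_le_biUnion_card_iff_exists_injective
      (fun i : I => univ.filter (fun j : J => A i j ≠ 0))).mp (by
        intro X
        set Y := X.biUnion (fun i : I => univ.filter (fun j : J => A i j ≠ 0)) with hY
        have h1 : (k + 1) * X.card = ∑ i ∈ X, ∑ j, A i j := by
          simp only [hr, Finset.sum_const, smul_eq_mul]; ring
        have h2 : ∑ i ∈ X, ∑ j, A i j = ∑ i ∈ X, ∑ j ∈ Y, A i j := by
          refine Finset.sum_congr rfl (fun i hi => ?_)
          symm
          apply Finset.sum_subset (Finset.subset_univ _)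
          intro j _ hj
          by_contra h3
          apply hj
          rw [hY, Finset.mem_biUnion]
          exact ⟨i, hi, by simp [h3]⟩
        have h3 : ∑ i ∈ X, ∑ j ∈ Y, A i j ≤ (k + 1) * Y.card := by
          rw [Finset.sum_comm]
          calc ∑ j ∈ Y, ∑ i ∈ X, A i j ≤ ∑ j ∈ Y, ∑ i, A i j :=
                Finset.sum_le_sum (fun j _ => Finset.sum_le_sum_of_subset (Finset.subset_univ _))
            _ = (k + 1) * Y.card := by simp only [hc, Finset.sum_const, smul_eq_mul]; ring
        have h4 : (k + 1) * X.card ≤ (k + 1) * Y.card := by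
          rw [h1, h2]; exact h3
        exact Nat.le_of_mul_le_mul_left h4 (Nat.succ_pos k))
    have hbij : Function.Bijective f := (Fintype.bijective_iff_injective_and_card f).mpr ⟨hinj, hcard⟩
    let e : I ≃ J := Equiv.ofBijective f hbij
    have hpos : ∀ i, A i (e i) ≠ 0 := by
      intro i
      exact (Finset.mem_filter.mp (hf i)).2
    let B : I → J → ℕ := fun i j => A i j - (if e i = j then 1 else 0)
    have hAB : ∀ i j, A i j = B i j + (if e i = j then 1 else 0) := by
      intro i j
      by_cases h : e i = j
      · have h1 := hpos i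
        rw [h] at h1
        simp only [B, if_pos h]
        omega
      · simp only [B, if_neg h]; omega
    have hBr : ∀ i, ∑ j, B i j = k := by
      intro i
      have h1 := hr i
      simp only [hAB, Finset.sum_add_distrib] at h1
      rw [Finset.sum_ite_eq univ (e i) (fun _ => 1), if_pos (Finset.mem_univ _)] at h1
      omega
    have hBc : ∀ j, ∑ i, B i j = k := by
      intro j
      have h1 := hc j
      simp only [hAB, Finset.sum_add_distrib] at h1
      have h2 : ∑ i, (if e i = j then 1 else 0) = 1 := by
        have : ∀ i, (if e i = j then 1 else 0) = (if i = e.symm j then 1 else 0) := by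
          intro i
          by_cases h3 : e i = j
          · rw [if_pos h3, if_pos (by rw [← h3]; simp)]
          · rw [if_neg h3, if_neg (by intro h4; apply h3; rw [h4]; simp)]
        simp only [this]
        rw [Finset.sum_ite_eq' univ (e.symm j) (fun _ => 1), if_pos (Finset.mem_univ _)]
      omega
    obtain ⟨σ, hσ1, hσ2⟩ := ih B hBr hBc
    refine ⟨Fin.cons e σ, ?_, ?_⟩
    · intro l i
      refine Fin.cases ?_ (fun l' => ?_) l
      · rw [Fin.cons_zero]; exact hpos i
      · rw [Fin.cons_succ]
        have := hσ1 l' i
        have h2 := hAB i (σ l' i)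
        omega
    · intro i j h
      by_cases h1 : e i = j
      · exact ⟨0, by rw [Fin.cons_zero]; exact h1⟩
      · have h2 : B i j ≠ 0 := by
          have := hAB i j
          rw [if_neg h1] at this
          omega
        obtain ⟨l, hl⟩ := hσ2 i j h2
        exact ⟨l.succ, by rw [Fin.cons_succ]; exact hl⟩

/-- Covering a bipartite graph by `k` matchings of size `m`. -/
theorem cover {U W : Type*} [Fintype U] [Fintype W] [DecidableEq U] [DecidableEq W]
    (E : Finset (U × W)) (m k : ℕ) (hE : E.card ≤ k * m)
    (hU : ∀ u, (E.filter (fun p => p.1 = u)).card ≤ k)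
    (hW : ∀ w, (E.filter (fun p => p.2 = w)).card ≤ k)
    (hmU : m ≤ Fintype.card U) (hmW : m ≤ Fintype.card W)
    (hcov : ∀ X : Finset U, k * m + (E.filter (fun p => p.1 ∉ X ∧ ∃ u ∈ X, (u, p.2) ∈ E)).card ≤
      k * (Xᶜ.card + (univ.filter (fun w : W => ∃ u ∈ X, (u, w) ∈ E)).card)) :
    ∃ M : Fin k → Finset (U × W), (∀ l, M l ⊆ E ∧ (M l).card = m ∧
      (∀ p ∈ M l, ∀ q ∈ M l, p.1 = q.1 → p = q) ∧ (∀ p ∈ M l, ∀ q ∈ M l, p.2 = q.2 → p = q)) ∧
      ∀ p ∈ E, ∃ l, p ∈ M l := by
  classical
  let a := Fintype.card W - m
  let b := Fintype.card U - m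
  let du : U → ℕ := fun u => (E.filter (fun p => p.1 = u)).card
  let dw : W → ℕ := fun w => (E.filter (fun p => p.2 = w)).card
  let r : U ⊕ Fin a → ℕ := Sum.elim (fun u => k - du u) (fun _ => k)
  let s : W ⊕ Fin b → ℕ := Sum.elim (fun w => k - dw w) (fun _ => k)
  let R : U ⊕ Fin a → W ⊕ Fin b → Prop := fun i j => match i, j with
    | Sum.inl u, Sum.inl w => (u, w) ∈ E
    | Sum.inl _, Sum.inr _ => True
    | Sum.inr _, Sum.inl _ => True
    | Sum.inr _, Sum.inr _ => False
  have hduE : ∑ u, du u = E.card :=
    (Finset.card_eq_sum_card_fiberwise (f := fun p : U × W => p.1)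
      (fun x _ => Finset.mem_coe.mpr (Finset.mem_univ _))).symm
  have hdwE : ∑ w, dw w = E.card :=
    (Finset.card_eq_sum_card_fiberwise (f := fun p : U × W => p.2)
      (fun x _ => Finset.mem_coe.mpr (Finset.mem_univ _))).symm
  have hsubU : ∀ X : Finset U, ∑ u ∈ X, (k - du u) + ∑ u ∈ X, du u = k * X.card := by
    intro X
    rw [← Finset.sum_add_distrib]
    have : ∀ u ∈ X, (k - du u) + du u = k := fun u _ => Nat.sub_add_cancel (hU u)
    rw [Finset.sum_congr rfl this, Finset.sum_const, smul_eq_mul, mul_comm]
  have hsubW : ∀ Y : Finset W, ∑ w ∈ Y, (k - dw w) + ∑ w ∈ Y, dw w = k * Y.card := by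
    intro Y
    rw [← Finset.sum_add_distrib]
    have : ∀ w ∈ Y, (k - dw w) + dw w = k := fun w _ => Nat.sub_add_cancel (hW w)
    rw [Finset.sum_congr rfl this, Finset.sum_const, smul_eq_mul, mul_comm]
  have hUall := hsubU univ
  have hWall := hsubW univ
  rw [hduE, Finset.card_univ] at hUall
  rw [hdwE, Finset.card_univ] at hWall
  have ham : a + m = Fintype.card W := Nat.sub_add_cancel hmW
  have hbm : b + m = Fintype.card U := Nat.sub_add_cancel hmU
  have hka : k * a + k * m = k * Fintype.card W := by rw [← ham]; ring
  have hkb : k * b + k * m = k * Fintype.card U := by rw [← hbm]; ring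
  have hrs : ∑ i, r i = ∑ j, s j := by
    rw [Fintype.sum_sum_type, Fintype.sum_sum_type]
    simp only [r, s, Sum.elim_inl, Sum.elim_inr, Finset.sum_const, Finset.card_univ,
      Fintype.card_fin, smul_eq_mul]
    have e1 : a * k = k * a := mul_comm _ _
    have e2 : b * k = k * b := mul_comm _ _
    omega
  obtain ⟨A, hA1, hA2, hA3⟩ := transport r s R hrs (by
    intro X
    -- split X
    by_cases hX2 : ∃ i : Fin a, Sum.inr i ∈ X
    · obtain ⟨i0, hi0⟩ := hX2
      by_cases hX1 : ∃ u : U, Sum.inl u ∈ X
      · obtain ⟨u0, hu0⟩ := hX1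
        have hall : univ.filter (fun j => ∃ i ∈ X, R i j) = univ := by
          ext j
          simp only [Finset.mem_filter, Finset.mem_univ, true_and, iff_true]
          rcases j with w | j
          · exact ⟨Sum.inr i0, hi0, trivial⟩
          · exact ⟨Sum.inl u0, hu0, trivial⟩
        rw [hall, ← hrs]
        exact Finset.sum_le_sum_of_subset (Finset.subset_univ _)
      · have h1 : ∑ i ∈ X, r i ≤ k * a := by
          have h2 : X ⊆ univ.map ⟨(Sum.inr : Fin a → U ⊕ Fin a), Sum.inr_injective⟩ := by
            intro x hx
            rcases x with u | i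
            · exact absurd ⟨u, hx⟩ hX1
            · rw [Finset.mem_map]; exact ⟨i, Finset.mem_univ _, rfl⟩
          refine (Finset.sum_le_sum_of_subset h2).trans ?_
          rw [Finset.sum_map]
          simp only [Function.Embedding.coeFn_mk, r, Sum.elim_inr, Finset.sum_const,
            Finset.card_univ, Fintype.card_fin, smul_eq_mul]
          exact le_of_eq (mul_comm _ _)
        have h3 : ∑ w, (k - dw w) ≤ ∑ j with (∃ i ∈ X, R i j), s j := by
          have h4 : (univ.map ⟨(Sum.inl : W → W ⊕ Fin b), Sum.inl_injective⟩) ⊆
              univ.filter (fun j => ∃ i ∈ X, R i j) := by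
            intro x hx
            rw [Finset.mem_map] at hx
            obtain ⟨w, -, rfl⟩ := hx
            simp only [Finset.mem_filter, Finset.mem_univ, true_and]
            exact ⟨Sum.inr i0, hi0, trivial⟩
          refine le_trans ?_ (Finset.sum_le_sum_of_subset h4)
          rw [Finset.sum_map]
          exact le_of_eq rfl
        have h5 : ∑ w, (k - dw w) + E.card = k * Fintype.card W := hWall
        omega
    · -- only vertices of U
      let X' : Finset U := univ.filter (fun u => Sum.inl u ∈ X)
      have hXX : X = X'.map ⟨(Sum.inl : U → U ⊕ Fin a), Sum.inl_injective⟩ := by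
        ext x
        rw [Finset.mem_map]
        rcases x with u | i
        · simp [X']
        · constructor
          · intro h; exact absurd ⟨i, h⟩ hX2
          · rintro ⟨u, _, h⟩; exact absurd h (by simp)
      by_cases hne : X'.Nonempty
      · obtain ⟨u0, hu0⟩ := hne
        have h1 : ∑ i ∈ X, r i = ∑ u ∈ X', (k - du u) := by
          rw [hXX, Finset.sum_map]; rfl
        let Y : Finset W := univ.filter (fun w : W => ∃ u ∈ X', (u, w) ∈ E)
        have h2 : ∑ w ∈ Y, (k - dw w) + k * b ≤ ∑ j with (∃ i ∈ X, R i j), s j := by
          have h3 : (Y.map ⟨(Sum.inl : W → W ⊕ Fin b), Sum.inl_injective⟩) ∪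
              (univ.map ⟨(Sum.inr : Fin b → W ⊕ Fin b), Sum.inr_injective⟩) ⊆
              univ.filter (fun j => ∃ i ∈ X, R i j) := by
            intro x hx
            rw [Finset.mem_union, Finset.mem_map, Finset.mem_map] at hx
            rcases hx with ⟨w, hw, rfl⟩ | ⟨j, -, rfl⟩
            · simp only [Y, Finset.mem_filter, Finset.mem_univ, true_and] at hw
              obtain ⟨u, hu, huw⟩ := hw
              simp only [Finset.mem_filter, Finset.mem_univ, true_and]
              refine ⟨Sum.inl u, ?_, huw⟩
              simpa [X'] using hu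
            · simp only [Finset.mem_filter, Finset.mem_univ, true_and]
              refine ⟨Sum.inl u0, ?_, trivial⟩
              simpa [X'] using hu0
          refine le_trans ?_ (Finset.sum_le_sum_of_subset h3)
          rw [Finset.sum_union]
          · rw [Finset.sum_map, Finset.sum_map]
            simp only [Function.Embedding.coeFn_mk, s, Sum.elim_inl, Sum.elim_inr,
              Finset.sum_const, Finset.card_univ, Fintype.card_fin, smul_eq_mul]
            exact le_of_eq (by rw [mul_comm b k])
          · rw [Finset.disjoint_left]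
            intro x hx hx2
            rw [Finset.mem_map] at hx hx2
            obtain ⟨w, _, rfl⟩ := hx
            obtain ⟨j, _, hj⟩ := hx2
            exact absurd hj (by simp)
        rw [h1]
        refine le_trans ?_ h2
        -- counting
        have c1 := hsubU X'
        have c2 := hsubW Y
        have c3 := hcov X'
        have c4 : X'.card + X'ᶜ.card = Fintype.card U := Finset.card_add_card_compl X'
        -- sum of degrees over Y
        have c5 : ∑ w ∈ Y, dw w = ∑ u ∈ X', du u +
            (E.filter (fun p => p.1 ∉ X' ∧ ∃ u ∈ X', (u, p.2) ∈ E)).card := by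
          have e1 : ∑ w ∈ Y, dw w = (E.filter (fun p => p.2 ∈ Y)).card := by
            rw [Finset.card_eq_sum_card_fiberwise (s := E.filter (fun p => p.2 ∈ Y)) (t := Y)
              (f := fun p : U × W => p.2) (fun x hx => by
                rw [Finset.mem_coe, Finset.mem_filter] at hx; exact Finset.mem_coe.mpr hx.2)]
            refine Finset.sum_congr rfl (fun w hw => ?_)
            change (E.filter (fun p => p.2 = w)).card = _
            congr 1
            ext p
            simp only [Finset.mem_filter]
            constructor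
            · rintro ⟨h1, h2⟩; exact ⟨⟨h1, by rw [h2]; exact hw⟩, h2⟩
            · rintro ⟨⟨h1, _⟩, h2⟩; exact ⟨h1, h2⟩
          have e2 : ∑ u ∈ X', du u = (E.filter (fun p => p.1 ∈ X')).card := by
            rw [Finset.card_eq_sum_card_fiberwise (s := E.filter (fun p => p.1 ∈ X')) (t := X')
              (f := fun p : U × W => p.1) (fun x hx => by
                rw [Finset.mem_coe, Finset.mem_filter] at hx; exact Finset.mem_coe.mpr hx.2)]
            refine Finset.sum_congr rfl (fun u hu => ?_)
            change (E.filter (fun p => p.1 = u)).card = _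
            congr 1
            ext p
            simp only [Finset.mem_filter]
            constructor
            · rintro ⟨h1, h2⟩; exact ⟨⟨h1, by rw [h2]; exact hu⟩, h2⟩
            · rintro ⟨⟨h1, _⟩, h2⟩; exact ⟨h1, h2⟩
          rw [e1, e2, ← Finset.card_union_of_disjoint]
          · congr 1
            ext p
            simp only [Finset.mem_filter, Finset.mem_union, Y, Finset.mem_univ, true_and]
            constructor
            · rintro ⟨h1, h2⟩
              by_cases h3 : p.1 ∈ X'
              · exact Or.inl ⟨h1, h3⟩
              · exact Or.inr ⟨h1, h3, h2⟩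
            · rintro (⟨h1, h2⟩ | ⟨h1, _, h2⟩)
              · exact ⟨h1, p.1, h2, h1⟩
              · exact ⟨h1, h2⟩
          · rw [Finset.disjoint_left]
            intro p hp hp2
            rw [Finset.mem_filter] at hp hp2
            exact hp2.2.1 hp.2
        have c6 : k * X'.card + k * X'ᶜ.card = k * Fintype.card U := by rw [← c4]; ring
        have c7 : k * (X'ᶜ.card + (univ.filter (fun w : W => ∃ u ∈ X', (u, w) ∈ E)).card) =
            k * X'ᶜ.card + k * Y.card := by
          rw [mul_add]
        rw [c7] at c3
        omega
      · rw [Finset.not_nonempty_iff_eq_empty] at hne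
        rw [hXX, hne]; simp)
  -- the regular matrix
  let B : U ⊕ Fin a → W ⊕ Fin b → ℕ := fun i j => A i j + (match i, j with
    | Sum.inl u, Sum.inl w => if (u, w) ∈ E then 1 else 0
    | _, _ => 0)
  have hrow : ∀ i, ∑ j, B i j = k := by
    intro i
    simp only [B, Finset.sum_add_distrib, hA1]
    rcases i with u | i
    · rw [Fintype.sum_sum_type]
      simp only [Finset.sum_const_zero, add_zero, r, Sum.elim_inl]
      have : ∑ w, (if (u, w) ∈ E then 1 else 0) = du u := by
        rw [← Finset.card_filter]
        apply Finset.card_bij (fun w _ => (u, w))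
        · intro w hw
          simp only [Finset.mem_filter, Finset.mem_univ, true_and] at hw
          rw [Finset.mem_filter]; exact ⟨hw, rfl⟩
        · intro w _ w' _ h; exact (Prod.mk.inj h).2
        · rintro ⟨u', w⟩ hp
          rw [Finset.mem_filter] at hp
          obtain ⟨h1, rfl⟩ := hp
          exact ⟨w, by simpa using h1, rfl⟩
      rw [this]
      exact Nat.sub_add_cancel (hU u)
    · simp only [Finset.sum_const_zero, add_zero, r, Sum.elim_inr]
  have hcol : ∀ j, ∑ i, B i j = k := by
    intro j
    simp only [B, Finset.sum_add_distrib, hA2]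
    rcases j with w | j
    · rw [Fintype.sum_sum_type]
      simp only [Finset.sum_const_zero, add_zero, s, Sum.elim_inl]
      have : ∑ u, (if (u, w) ∈ E then 1 else 0) = dw w := by
        rw [← Finset.card_filter]
        apply Finset.card_bij (fun u _ => (u, w))
        · intro u hu
          simp only [Finset.mem_filter, Finset.mem_univ, true_and] at hu
          rw [Finset.mem_filter]; exact ⟨hu, rfl⟩
        · intro u _ u' _ h; exact (Prod.mk.inj h).1
        · rintro ⟨u, w'⟩ hp
          rw [Finset.mem_filter] at hp
          obtain ⟨h1, rfl⟩ := hp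
          exact ⟨u, by simpa using h1, rfl⟩
      rw [this]
      exact Nat.sub_add_cancel (hW w)
    · have h0 : ∑ i : U ⊕ Fin a, (match i, (Sum.inr j : W ⊕ Fin b) with
        | Sum.inl u, Sum.inl w => if (u, w) ∈ E then 1 else 0
        | _, _ => 0) = 0 := by
        apply Finset.sum_eq_zero
        intro i _
        rcases i with u | i <;> rfl
      rw [h0]
      simp only [add_zero, s, Sum.elim_inr]
  obtain ⟨σ, hσ1, hσ2⟩ := birkhoff k B hrow hcol
  have hBR : ∀ i j, B i j ≠ 0 → R i j := by
    intro i j h
    by_cases h1 : A i j = 0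
    · simp only [B, h1, zero_add] at h
      rcases i with u | i <;> rcases j with w | j
      · by_contra h2
        simp only at h
        rw [if_neg h2] at h
        exact h rfl
      · exact absurd rfl h
      · exact absurd rfl h
      · exact absurd rfl h
    · exact hA3 i j h1
  refine ⟨fun l => univ.filter (fun p : U × W => σ l (Sum.inl p.1) = Sum.inl p.2), ?_, ?_⟩
  · intro l
    refine ⟨?_, ?_, ?_, ?_⟩
    · intro p hp
      rw [Finset.mem_filter] at hp
      have h1 := hBR _ _ (hσ1 l (Sum.inl p.1))
      rw [hp.2] at h1
      exact h1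
    · -- count
      have h1 : (univ.filter (fun p : U × W => σ l (Sum.inl p.1) = Sum.inl p.2)).card =
          (univ.filter (fun w : W => ∃ u : U, σ l (Sum.inl u) = Sum.inl w)).card := by
        apply Finset.card_bij (fun p _ => p.2)
        · intro p hp
          rw [Finset.mem_filter] at hp ⊢
          exact ⟨Finset.mem_univ _, p.1, hp.2⟩
        · intro p hp q hq h
          rw [Finset.mem_filter] at hp hq
          have : σ l (Sum.inl p.1) = σ l (Sum.inl q.1) := by rw [hp.2, hq.2, h]
          exact Prod.ext (Sum.inl_injective ((σ l).injective this)) h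
        · intro w hw
          rw [Finset.mem_filter] at hw
          obtain ⟨u, hu⟩ := hw.2
          exact ⟨(u, w), by rw [Finset.mem_filter]; exact ⟨Finset.mem_univ _, hu⟩, rfl⟩
      have h2 : (univ.filter (fun w : W => ¬ ∃ u : U, σ l (Sum.inl u) = Sum.inl w)).card = a := by
        have h3 : (univ.filter (fun w : W => ¬ ∃ u : U, σ l (Sum.inl u) = Sum.inl w)).card =
            (univ : Finset (Fin a)).card := by
          symm
          have key : ∀ i : Fin a, ∃ w : W, σ l (Sum.inr i) = Sum.inl w := by
            intro i
            have h4 := hBR _ _ (hσ1 l (Sum.inr i))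
            rcases h5 : σ l (Sum.inr i) with w | j
            · exact ⟨w, rfl⟩
            · rw [h5] at h4; exact absurd h4 (fun h => h)
          choose g hg using key
          apply Finset.card_bij (fun i _ => g i)
          · intro i _
            rw [Finset.mem_filter]
            refine ⟨Finset.mem_univ _, ?_⟩
            rintro ⟨u, hu⟩
            rw [← hg i] at hu
            exact absurd ((σ l).injective hu) (by simp)
          · intro i _ i' _ h
            have : σ l (Sum.inr i) = σ l (Sum.inr i') := by rw [hg i, hg i', h]
            exact Sum.inr_injective ((σ l).injective this)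
          · intro w hw
            rw [Finset.mem_filter] at hw
            rcases h5 : (σ l).symm (Sum.inl w) with u | i
            · exact absurd ⟨u, by rw [← h5]; simp⟩ hw.2
            · refine ⟨i, Finset.mem_univ _, ?_⟩
              have h6 : σ l (Sum.inr i) = Sum.inl w := by rw [← h5]; simp
              rw [hg i] at h6
              exact Sum.inl_injective h6
        rw [h3, Finset.card_univ, Fintype.card_fin]
      have h7 := Finset.card_filter_add_card_filter_not (s := (univ : Finset W))
        (fun w : W => ∃ u : U, σ l (Sum.inl u) = Sum.inl w)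
      rw [h2, Finset.card_univ] at h7
      rw [h1]
      omega
    · intro p hp q hq h
      rw [Finset.mem_filter] at hp hq
      have h1 : (Sum.inl p.2 : W ⊕ Fin b) = Sum.inl q.2 := by rw [← hp.2, ← hq.2, h]
      exact Prod.ext h (Sum.inl_injective h1)
    · intro p hp q hq h
      rw [Finset.mem_filter] at hp hq
      have h1 : σ l (Sum.inl p.1) = σ l (Sum.inl q.1) := by rw [hp.2, hq.2, h]
      exact Prod.ext (Sum.inl_injective ((σ l).injective h1)) h
  · intro p hp
    have h1 : B (Sum.inl p.1) (Sum.inl p.2) ≠ 0 := by
      simp only [B]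
      rw [if_pos hp]
      omega
    obtain ⟨l, hl⟩ := hσ2 _ _ h1
    exact ⟨l, by rw [Finset.mem_filter]; exact ⟨Finset.mem_univ _, hl⟩⟩

end Pool.Agent.V11149.Birkhoff
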