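import Mathlib

set_option autoImplicit false

namespace Pool.Agent.V11149.FlowLib

open Finset SimpleGraph

variable {V : Type*} [Fintype V] [DecidableEq V]

/-- an edge with a nonzero value in an antisymmetric circulation is not a bridge. -/
theorem not_bridge (G : SimpleGraph V) (y : V → V → ℤ)
    (anti : ∀ u v, y u v = - y v u) (supp : ∀ u v, ¬ G.Adj u v → y u v = 0)
    (cons : ∀ u, ∑ v, y u v = 0) (u v : V) (huv : y u v ≠ 0) : ¬ G.IsBridge s(u, v) := by
  classical
  intro hb
  rw [isBridge_iff] at hb
  set H := G.deleteEdges {s(u, v)} with hH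
  let S : Finset V := univ.filter (fun w => H.Reachable u w)
  have hu : u ∈ S := by simp [S]
  have hv : v ∉ S := by simpa [S] using hb
  have h1 : ∑ s ∈ S, ∑ w, y s w = 0 := Finset.sum_eq_zero (fun s _ => cons s)
  have h2 : ∀ s, ∑ w, y s w = ∑ w ∈ S, y s w + ∑ w ∈ Sᶜ, y s w := fun s =>
    (Finset.sum_add_sum_compl S _).symm
  simp only [h2, Finset.sum_add_distrib] at h1
  have h3 : ∑ s ∈ S, ∑ w ∈ S, y s w = 0 := by
    have h4 : ∑ s ∈ S, ∑ w ∈ S, y s w = ∑ s ∈ S, ∑ w ∈ S, - y s w := by
      conv_lhs => rw [Finset.sum_comm]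
      refine Finset.sum_congr rfl (fun s _ => Finset.sum_congr rfl (fun w _ => anti w s))
    simp only [Finset.sum_neg_distrib] at h4
    omega
  have h5 : ∀ s ∈ S, ∀ w ∈ Sᶜ, (s, w) ≠ (u, v) → y s w = 0 := by
    intro s hs w hw hne
    apply supp
    intro hadj
    rw [Finset.mem_compl] at hw
    apply hw
    simp only [S, Finset.mem_filter, Finset.mem_univ, true_and] at hs ⊢
    refine hs.trans (Adj.reachable ?_)
    rw [hH, deleteEdges_adj]
    refine ⟨hadj, ?_⟩
    simp only [Set.mem_singleton_iff, Sym2.eq_iff]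
    rintro (⟨rfl, rfl⟩ | ⟨rfl, rfl⟩)
    · exact hne rfl
    · exact hv (by simpa [S] using hs)
  have h6 : ∑ s ∈ S, ∑ w ∈ Sᶜ, y s w = y u v := by
    rw [Finset.sum_eq_single_of_mem u hu]
    · rw [Finset.sum_eq_single_of_mem v (Finset.mem_compl.mpr hv)]
      intro w hw hwv
      exact h5 u hu w hw (fun h => hwv (Prod.mk.inj h).2)
    · intro s hs hsu
      apply Finset.sum_eq_zero
      intro w hw
      exact h5 s hs w hw (fun h => hsu (Prod.mk.inj h).1)
  rw [h3, h6, zero_add] at h1
  exact huv h1

omit [Fintype V] [DecidableEq V] in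
/-- connectivity from a parent function with decreasing rank. -/
theorem connected_of_parent (G : SimpleGraph V) (r : V) (par : V → V) (rk : V → ℕ)
    (h : ∀ v, v ≠ r → G.Adj v (par v) ∧ rk (par v) < rk v) : G.Connected := by
  have key : ∀ n v, rk v ≤ n → G.Reachable v r := by
    intro n
    induction n with
    | zero =>
      intro v hv
      by_cases hvr : v = r
      · subst hvr; exact Reachable.refl _
      · have := (h v hvr).2; omega
    | succ n ih =>
      intro v hv
      by_cases hvr : v = r
      · subst hvr; exact Reachable.refl _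
      · obtain ⟨h1, h2⟩ := h v hvr
        exact h1.reachable.trans (ih _ (by omega))
  exact { preconnected := fun a b => (key _ a le_rfl).trans (key _ b le_rfl).symm
          nonempty := ⟨r⟩ }

/-- The antisymmetric function of an oriented flow. -/
noncomputable def skew (G : SimpleGraph V) [Fintype G.edgeSet] (D : G.edgeSet → V × V)
    (f : G.edgeSet → ℤ) (u w : V) : ℤ :=
  (∑ e, if D e = (u, w) then f e else 0) - ∑ e, if D e = (w, u) then f e else 0

theorem skew_anti (G : SimpleGraph V) [Fintype G.edgeSet] (D : G.edgeSet → V × V)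
    (f : G.edgeSet → ℤ) (u w : V) : skew G D f u w = - skew G D f w u := by
  unfold skew; ring

theorem skew_sum (G : SimpleGraph V) [Fintype G.edgeSet] (D : G.edgeSet → V × V)
    (f : G.edgeSet → ℤ) (u : V) : ∑ w, skew G D f u w =
      (∑ e with (D e).1 = u, f e) - ∑ e with (D e).2 = u, f e := by
  unfold skew
  rw [Finset.sum_sub_distrib, Finset.sum_comm]
  congr 1
  · rw [Finset.sum_filter]
    refine Finset.sum_congr rfl (fun e _ => ?_)
    by_cases h : (D e).1 = u
    · rw [if_pos h]
      rw [Finset.sum_eq_single_of_mem (D e).2 (Finset.mem_univ _)]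
      · rw [if_pos]; rw [← h]
      · intro w _ hw
        rw [if_neg]
        intro h2
        rw [h2] at hw
        exact hw rfl
    · rw [if_neg h]
      apply Finset.sum_eq_zero
      intro w _
      rw [if_neg]
      intro h2
      rw [h2] at h
      exact h rfl
  · rw [Finset.sum_comm, Finset.sum_filter]
    refine Finset.sum_congr rfl (fun e _ => ?_)
    by_cases h : (D e).2 = u
    · rw [if_pos h]
      rw [Finset.sum_eq_single_of_mem (D e).1 (Finset.mem_univ _)]
      · rw [if_pos]; rw [← h]
      · intro w _ hw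
        rw [if_neg]
        intro h2
        rw [h2] at hw
        exact hw rfl
    · rw [if_neg h]
      apply Finset.sum_eq_zero
      intro w _
      rw [if_neg]
      intro h2
      rw [h2] at h
      exact h rfl

theorem skew_supp (G : SimpleGraph V) [Fintype G.edgeSet] (D : G.edgeSet → V × V)
    (hD : ∀ e, s((D e).1, (D e).2) = (e : Sym2 V))
    (f : G.edgeSet → ℤ) (u w : V) (h : ¬ G.Adj u w) : skew G D f u w = 0 := by
  unfold skew
  rw [Finset.sum_eq_zero, Finset.sum_eq_zero, sub_zero]
  · intro e _
    rw [if_neg]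
    intro h2
    have := hD e
    rw [h2] at this
    have h3 := e.2
    rw [← this] at h3
    exact h (SimpleGraph.Adj.symm h3)
  · intro e _
    rw [if_neg]
    intro h2
    have := hD e
    rw [h2] at this
    have h3 := e.2
    rw [← this] at h3
    exact h h3

theorem skew_val (G : SimpleGraph V) [Fintype G.edgeSet] (D : G.edgeSet → V × V)
    (hD : ∀ e, s((D e).1, (D e).2) = (e : Sym2 V))
    (f : G.edgeSet → ℤ) (u w : V) (h : G.Adj u w) :
    skew G D f u w = f ⟨s(u, w), h⟩ ∨ skew G D f u w = - f ⟨s(u, w), h⟩ := by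
  have hne : u ≠ w := h.ne
  have key : ∀ e : G.edgeSet, (D e = (u, w) ∨ D e = (w, u)) → e = ⟨s(u, w), h⟩ := by
    intro e he
    apply Subtype.ext
    rw [← hD e]
    rcases he with he | he
    · rw [he]
    · rw [he]; exact Sym2.eq_swap
  have h0 := hD ⟨s(u, w), h⟩
  simp only [Sym2.eq_iff] at h0
  rcases h0 with ⟨h1, h2⟩ | ⟨h1, h2⟩
  · left
    have h3 : D ⟨s(u, w), h⟩ = (u, w) := Prod.ext h1 h2
    unfold skew
    rw [Finset.sum_eq_single_of_mem (⟨s(u, w), h⟩ : G.edgeSet) (Finset.mem_univ _), if_pos h3,
      Finset.sum_eq_zero, sub_zero]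
    · intro e _
      rw [if_neg]
      intro h4
      have := key e (Or.inr h4)
      rw [this, h3] at h4
      exact hne (Prod.mk.inj h4).1
    · intro e _ hne2
      rw [if_neg]
      intro h4
      exact hne2 (key e (Or.inl h4))
  · right
    have h3 : D ⟨s(u, w), h⟩ = (w, u) := Prod.ext h1 h2
    unfold skew
    have e1 : (∑ e, if D e = (u, w) then f e else 0) = 0 := by
      apply Finset.sum_eq_zero
      intro e _
      rw [if_neg]
      intro h4
      have := key e (Or.inl h4)
      rw [this, h3] at h4
      exact hne (Prod.mk.inj h4).2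
    have e2 : (∑ e, if D e = (w, u) then f e else 0) = f ⟨s(u, w), h⟩ := by
      rw [Finset.sum_eq_single_of_mem (⟨s(u, w), h⟩ : G.edgeSet) (Finset.mem_univ _), if_pos h3]
      intro e _ hne2
      rw [if_neg]
      intro h4
      exact hne2 (key e (Or.inr h4))
    rw [e1, e2, zero_sub]

end Pool.Agent.V11149.FlowLib
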