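import Mathlib

set_option autoImplicit false

namespace Pool.Agent.V11149.FlowZ2

open Finset

/-- net outflow of `c` at `w`, in a multigraph with tails `t` and heads `h`. -/
def bd {V E R : Type*} [Fintype E] [DecidableEq V] [AddCommGroup R] (t h : E → V) (c : E → R)
    (w : V) : R :=
  ∑ e, ((if t e = w then c e else 0) - (if h e = w then c e else 0))

variable {V E : Type*} [Fintype E] [DecidableEq V]

lemma zmod2_ne {x : ZMod 2} (h : x ≠ 0) : x = 1 := by
  revert h; revert x; decide

lemma bd_add {R : Type*} [AddCommGroup R] (t h : E → V) (c d : E → R) (w : V) :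
    bd t h (fun e => c e + d e) w = bd t h c w + bd t h d w := by
  unfold bd
  rw [← Finset.sum_add_distrib]
  refine Finset.sum_congr rfl (fun e _ => ?_)
  by_cases h1 : t e = w <;> by_cases h2 : h e = w <;> simp [h1, h2] <;> abel

lemma bd_map {R S : Type*} [AddCommGroup R] [AddCommGroup S] (F : R →+ S) (t h : E → V)
    (c : E → R) (w : V) : bd t h (fun e => F (c e)) w = F (bd t h c w) := by
  unfold bd
  rw [map_sum]
  refine Finset.sum_congr rfl (fun e _ => ?_)
  by_cases h1 : t e = w <;> by_cases h2 : h e = w <;> simp [h1, h2]

/-- every circulation modulo 2 lifts to an integer circulation with values in `{-1,0,1}`. -/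
theorem lift [DecidableEq E] (n : ℕ) : ∀ (t h : E → V) (c : E → ZMod 2),
    (univ.filter (fun e => c e ≠ 0)).card ≤ n → (∀ w, bd t h c w = 0) →
    ∃ f : E → ℤ, (∀ e, |f e| ≤ 1) ∧ (∀ e, (f e : ZMod 2) = c e) ∧ ∀ w, bd t h f w = 0 := by
  induction n with
  | zero =>
    intro t h c hc _
    have hc0 : ∀ e, c e = 0 := by
      intro e
      by_contra hne
      have : e ∈ univ.filter (fun e => c e ≠ 0) := by simp [hne]
      rw [Finset.card_eq_zero.mp (Nat.le_zero.mp hc)] at this
      exact absurd this (Finset.notMem_empty _)
    refine ⟨fun _ => 0, fun e => by simp, fun e => by simp [hc0 e], fun w => by simp [bd]⟩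
  | succ n ih =>
    intro t h c hc hb
    by_cases hl : ∀ e, c e ≠ 0 → t e = h e
    · refine ⟨fun e => if c e = 0 then 0 else 1, ?_, ?_, ?_⟩
      · intro e; by_cases h0 : c e = 0 <;> simp [h0]
      · intro e
        by_cases h0 : c e = 0
        · simp [h0]
        · simp [h0, zmod2_ne h0]
      · intro w
        unfold bd
        apply Finset.sum_eq_zero
        intro e _
        by_cases h0 : c e = 0
        · simp [h0]
        · rw [hl e h0, sub_self]
    · push Not at hl
      obtain ⟨e1, hce1, hte1⟩ := hl
      have hce1' := zmod2_ne hce1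
      obtain ⟨e2, h21, hce2, hinc⟩ : ∃ e2, e2 ≠ e1 ∧ c e2 ≠ 0 ∧
          ((t e2 = h e1 ∧ h e2 ≠ h e1) ∨ (h e2 = h e1 ∧ t e2 ≠ h e1)) := by
        by_contra hcon
        push Not at hcon
        have hbv := hb (h e1)
        unfold bd at hbv
        rw [Finset.sum_eq_single_of_mem e1 (Finset.mem_univ _)] at hbv
        · rw [if_neg hte1, if_pos rfl, zero_sub, neg_eq_zero] at hbv
          exact hce1 hbv
        · intro e _ hne
          by_cases h0 : c e = 0
          · simp [h0]
          · obtain ⟨q1, q2⟩ := hcon e hne h0
            by_cases h3 : t e = h e1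
            · have h4 : h e = h e1 := by
                by_contra h5
                exact h5 (q1 h3)
              rw [if_pos h3, if_pos h4, sub_self]
            · have h4 : ¬ h e = h e1 := by
                intro h5
                exact h3 (q2 h5)
              rw [if_neg h3, if_neg h4, sub_self]
      have hce2' := zmod2_ne hce2
      -- the other end of e2
      obtain ⟨b, sg, hb1⟩ : ∃ (b : V) (sg : ℤ), (sg = 1 ∧ t e2 = h e1 ∧ h e2 = b) ∨
          (sg = -1 ∧ h e2 = h e1 ∧ t e2 = b) := by
        rcases hinc with ⟨q1, q2⟩ | ⟨q1, q2⟩
        · exact ⟨h e2, 1, Or.inl ⟨rfl, q1, rfl⟩⟩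
        · exact ⟨t e2, -1, Or.inr ⟨rfl, q1, rfl⟩⟩
      -- relation between the two boundaries
      have hu1 : ∀ (e : E), e ≠ e1 → Function.update h e1 b e = h e := fun e he =>
        Function.update_of_ne he _ _
      have hcard : (univ.filter (fun e => Function.update c e2 0 e ≠ 0)).card ≤ n := by
        have : (univ.filter (fun e => Function.update c e2 0 e ≠ 0)) ⊆
            (univ.filter (fun e => c e ≠ 0)).erase e2 := by
          intro e he
          rw [Finset.mem_filter] at he
          rw [Finset.mem_erase, Finset.mem_filter]
          by_cases h5 : e = e2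
          · subst h5; simp at he
          · rw [Function.update_of_ne h5] at he
            exact ⟨h5, Finset.mem_univ _, he.2⟩
        have h6 := Finset.card_le_card this
        rw [Finset.card_erase_of_mem (by simp [hce2])] at h6
        omega
      have hbd' : ∀ w, bd t (Function.update h e1 b) (Function.update c e2 0) w = 0 := by
        intro w
        have hdiff : bd t h c w - bd t (Function.update h e1 b) (Function.update c e2 0) w = 0 := by
          unfold bd
          rw [← Finset.sum_sub_distrib, Finset.sum_eq_add e1 e2 h21.symm]
          · rw [Function.update_self, Function.update_self, Function.update_of_ne h21.symm,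
              hce1', hce2']
            rcases hb1 with ⟨-, q1, q2⟩ | ⟨-, q1, q2⟩ <;> rw [q1, q2] <;>
              by_cases k1 : t e1 = w <;> by_cases k2 : h e1 = w <;> by_cases k3 : b = w <;>
              simp [k1, k2, k3] <;> decide
          · intro e _ he
            rw [Function.update_of_ne he.1, Function.update_of_ne he.2, sub_self]
          · intro h9; exact absurd (Finset.mem_univ _) h9
          · intro h9; exact absurd (Finset.mem_univ _) h9
        rw [hb w, zero_sub, neg_eq_zero] at hdiff
        exact hdiff
      obtain ⟨f, hf1, hf2, hf3⟩ := ih t (Function.update h e1 b) (Function.update c e2 0) hcard hbd'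
      have hfe2 : f e2 = 0 := by
        have h6 := hf2 e2
        rw [Function.update_self, ZMod.intCast_zmod_eq_zero_iff_dvd] at h6
        have h7 := hf1 e2
        rw [abs_le] at h7
        omega
      refine ⟨Function.update f e2 (sg * f e1), ?_, ?_, ?_⟩
      · intro e
        by_cases h5 : e = e2
        · subst h5
          rw [Function.update_self, abs_mul]
          have : |sg| = 1 := by rcases hb1 with ⟨q, -⟩ | ⟨q, -⟩ <;> rw [q] <;> simp
          rw [this, one_mul]
          exact hf1 e1
        · rw [Function.update_of_ne h5]; exact hf1 e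
      · intro e
        by_cases h5 : e = e2
        · subst h5
          rw [Function.update_self]
          have h8 := hf2 e1
          rw [Function.update_of_ne h21.symm, hce1'] at h8
          push_cast
          rw [h8, hce2']
          rcases hb1 with ⟨q, -⟩ | ⟨q, -⟩ <;> rw [q] <;> decide
        · rw [Function.update_of_ne h5]
          have h8 := hf2 e
          rwa [Function.update_of_ne h5] at h8
      · intro w
        have hdiff : bd t h (Function.update f e2 (sg * f e1)) w -
            bd t (Function.update h e1 b) f w = 0 := by
          unfold bd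
          rw [← Finset.sum_sub_distrib, Finset.sum_eq_add e1 e2 h21.symm]
          · rw [Function.update_self, Function.update_self, Function.update_of_ne h21.symm, hfe2]
            rcases hb1 with ⟨q0, q1, q2⟩ | ⟨q0, q1, q2⟩ <;> rw [q0, q1, q2] <;>
              by_cases k1 : t e1 = w <;> by_cases k2 : h e1 = w <;> by_cases k3 : b = w <;>
              simp [k1, k2, k3]
          · intro e _ he
            rw [Function.update_of_ne he.1, Function.update_of_ne he.2, sub_self]
          · intro h9; exact absurd (Finset.mem_univ _) h9
          · intro h9; exact absurd (Finset.mem_univ _) h9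
        rw [hf3 w, sub_zero] at hdiff
        exact hdiff

/-- two circulations modulo 2 covering all edges give a nowhere-zero 4-flow. -/
theorem four_flow (t h : E → V) (c1 c2 : E → ZMod 2) (h1 : ∀ w, bd t h c1 w = 0)
    (h2 : ∀ w, bd t h c2 w = 0) (hcov : ∀ e, c1 e ≠ 0 ∨ c2 e ≠ 0) :
    ∃ f : E → ℤ, (∀ e, f e ≠ 0 ∧ |f e| < 4) ∧ ∀ w, bd t h f w = 0 := by
  classical
  obtain ⟨f1, a1, a2, a3⟩ := lift _ t h c1 le_rfl h1
  obtain ⟨f2, b1, b2, b3⟩ := lift _ t h c2 le_rfl h2
  refine ⟨fun e => f1 e + (f2 e + f2 e), ?_, ?_⟩
  · intro e
    have p1 := abs_le.mp (a1 e)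
    have p2 := abs_le.mp (b1 e)
    constructor
    · intro h0
      change f1 e + (f2 e + f2 e) = 0 at h0
      rcases hcov e with h3 | h3
      · rw [← a2 e] at h3
        apply h3
        rw [ZMod.intCast_zmod_eq_zero_iff_dvd]
        exact ⟨-(f2 e), by push_cast; linarith⟩
      · have h4 : f1 e = 0 := by omega
        have h5 : f2 e = 0 := by omega
        apply h3
        rw [← b2 e, h5]; simp
    · change |f1 e + (f2 e + f2 e)| < 4
      rw [abs_lt]; constructor <;> linarith [p1.1, p1.2, p2.1, p2.2]
  · intro w
    rw [bd_add, bd_add, a3, b3]; simp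

/-- existence of a `T`-join within the allowed edges, by duality over the field with two elements. -/
theorem tjoin [Fintype V] (t h : E → V) (allowed : E → Prop) [DecidablePred allowed] (T : V → ZMod 2)
    (hT : ∀ g : V → ZMod 2, (∀ e, allowed e → g (t e) = g (h e)) → ∑ v, g v * T v = 0) :
    ∃ J : E → ZMod 2, (∀ e, ¬ allowed e → J e = 0) ∧ ∀ v, bd t h J v = T v := by
  classical
  let L : (E → ZMod 2) →ₗ[ZMod 2] (V → ZMod 2) :=
    { toFun := fun J v => bd t h (fun e => if allowed e then J e else 0) v
      map_add' := by
        intro x y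
        funext v
        rw [Pi.add_apply, ← bd_add]
        congr 1
        funext e
        by_cases ha : allowed e <;> simp [ha]
      map_smul' := by
        intro r x
        funext v
        simp only [bd, Pi.smul_apply, smul_eq_mul, RingHom.id_apply, Finset.mul_sum]
        refine Finset.sum_congr rfl (fun e _ => ?_)
        by_cases ha : allowed e <;> by_cases k1 : t e = v <;> by_cases k2 : h e = v <;>
          simp [ha, k1, k2] }
  have hmem : T ∈ LinearMap.range L := by
    by_contra hn
    obtain ⟨f, hf1, hf2⟩ := Submodule.exists_le_ker_of_notMem hn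
    apply hf1
    have hfx : ∀ x : V → ZMod 2, f x = ∑ v, f (Pi.single v 1) * x v := by
      intro x
      conv_lhs => rw [pi_eq_sum_univ' x]
      rw [map_sum]
      refine Finset.sum_congr rfl (fun v _ => ?_)
      rw [map_smul, smul_eq_mul, mul_comm]
    rw [hfx T]
    apply hT
    intro e he
    have h3 : f (L (Pi.single e 1)) = 0 := hf2 ⟨_, rfl⟩
    have h4 : L (Pi.single e 1) = Pi.single (t e) 1 - Pi.single (h e) 1 := by
      funext w
      change bd t h _ w = _
      unfold bd
      rw [Finset.sum_eq_single_of_mem e (Finset.mem_univ _)]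
      · simp [he, Pi.single_apply, eq_comm]
      · intro e' _ hne
        simp [Pi.single_apply, hne]
    rw [h4, map_sub, sub_eq_zero] at h3
    exact h3
  obtain ⟨J, hJ⟩ := hmem
  refine ⟨fun e => if allowed e then J e else 0, fun e he => by simp [he], fun v => ?_⟩
  exact congrFun hJ v

end Pool.Agent.V11149.FlowZ2
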