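import Mathlib

set_option autoImplicit false

/-! Existence of 25 permutations of `Fin N` such that every set `A` with `1 ≤ |A| ≤ N/2` has more
than `3|A|/2` images and more than `3|A|/2` preimages (counting argument). -/

namespace Pool.Agent.V11149.RandomBij

open Finset

variable {N : ℕ}

/-- permutations mapping `A` into `B`. -/
def X (A B : Finset (Fin N)) : Finset (Equiv.Perm (Fin N)) :=
  univ.filter (fun f => ∀ x ∈ A, f x ∈ B)

lemma mem_X (A B : Finset (Fin N)) (f : Equiv.Perm (Fin N)) : f ∈ X A B ↔ ∀ x ∈ A, f x ∈ B := by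
  simp [X]

lemma card_X_insert (A B : Finset (Fin N)) (a : Fin N) (ha : a ∉ A) :
    (X (insert a A) B).card * (N - A.card) = (X A B).card * (B.card - A.card) := by
  have h := Finset.sum_card_bipartiteAbove_eq_sum_card_bipartiteBelow
    (s := X A B) (t := Aᶜ) (fun (f : Equiv.Perm (Fin N)) (c : Fin N) => f c ∈ B)
  have h1 : ∀ f ∈ X A B, (Finset.bipartiteAbove (fun (f : Equiv.Perm (Fin N)) (c : Fin N) => f c ∈ B)
      Aᶜ f).card = B.card - A.card := by
    intro f hf
    rw [mem_X] at hf
    have h2 : (univ.filter (fun c => f c ∈ B)).card = B.card := by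
      apply Finset.card_bij (fun c _ => f c)
      · intro c hc; simpa using hc
      · intro c _ d _ h; exact f.injective h
      · intro b hb
        exact ⟨f.symm b, by simpa using hb, by simp⟩
    have h3 : Finset.bipartiteAbove (fun (f : Equiv.Perm (Fin N)) (c : Fin N) => f c ∈ B) Aᶜ f =
        (univ.filter (fun c => f c ∈ B)) \ A := by
      ext c
      simp only [Finset.mem_bipartiteAbove, Finset.mem_compl, Finset.mem_sdiff, Finset.mem_filter,
        Finset.mem_univ, true_and]
      tauto
    rw [h3, Finset.card_sdiff_of_subset, h2]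
    intro c hc
    simp only [Finset.mem_filter, Finset.mem_univ, true_and]
    exact hf c hc
  have h4 : ∀ c ∈ Aᶜ, (Finset.bipartiteBelow (fun (f : Equiv.Perm (Fin N)) (c : Fin N) => f c ∈ B)
      (X A B) c).card = (X (insert a A) B).card := by
    intro c hc
    rw [Finset.mem_compl] at hc
    have hswap : ∀ x ∈ A, Equiv.swap a c x = x := by
      intro x hx
      apply Equiv.swap_apply_of_ne_of_ne
      · rintro rfl; exact ha hx
      · rintro rfl; exact hc hx
    apply Finset.card_bij (fun f _ => f * Equiv.swap a c)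
    · intro f hf
      rw [Finset.mem_bipartiteBelow, mem_X] at hf
      rw [mem_X]
      intro x hx
      rw [Finset.mem_insert] at hx
      rcases hx with rfl | hx
      · rw [Equiv.Perm.mul_apply, Equiv.swap_apply_left]; exact hf.2
      · rw [Equiv.Perm.mul_apply, hswap x hx]; exact hf.1 x hx
    · intro f _ g _ h
      exact mul_right_cancel h
    · intro g hg
      rw [mem_X] at hg
      refine ⟨g * Equiv.swap a c, ?_, ?_⟩
      · rw [Finset.mem_bipartiteBelow, mem_X]
        constructor
        · intro x hx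
          rw [Equiv.Perm.mul_apply, hswap x hx]
          exact hg x (Finset.mem_insert_of_mem hx)
        · rw [Equiv.Perm.mul_apply, Equiv.swap_apply_right]
          exact hg a (Finset.mem_insert_self _ _)
      · rw [mul_assoc, Equiv.swap_mul_self, mul_one]
  rw [Finset.sum_congr rfl h1, Finset.sum_congr rfl h4, Finset.sum_const, Finset.sum_const,
    smul_eq_mul, smul_eq_mul, Finset.card_compl, Fintype.card_fin] at h
  rw [h]; ring

lemma card_X_le (B : Finset (Fin N)) (A : Finset (Fin N)) :
    (X A B).card * N ^ A.card ≤ N.factorial * B.card ^ A.card := by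
  induction A using Finset.induction_on with
  | empty =>
    simp only [Finset.card_empty, pow_zero, mul_one]
    refine (Finset.card_le_univ _).trans ?_
    rw [Fintype.card_perm, Fintype.card_fin]
  | insert a A ha ih =>
    have hlt : A.card < N := by
      have h1 : A.card < (univ : Finset (Fin N)).card := by
        apply Finset.card_lt_card
        rw [Finset.ssubset_univ_iff]
        intro h
        rw [h] at ha
        exact ha (Finset.mem_univ a)
      rwa [Finset.card_univ, Fintype.card_fin] at h1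
    have hB : B.card ≤ N := by
      have := Finset.card_le_univ B
      rwa [Fintype.card_fin] at this
    have h1 := card_X_insert A B a ha
    have h2 : (X (insert a A) B).card * N ≤ (X A B).card * B.card := by
      obtain ⟨r, hr⟩ := Nat.exists_eq_add_of_lt hlt
      have hNA : N - A.card = r + 1 := by omega
      rcases le_or_gt A.card B.card with h3 | h3
      · obtain ⟨s, hs⟩ := Nat.exists_eq_add_of_le h3
        have hBA : B.card - A.card = s := by omega
        rw [hNA, hBA] at h1
        have h4 : (X (insert a A) B).card * N * (r + 1) ≤ (X A B).card * B.card * (r + 1) := by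
          calc (X (insert a A) B).card * N * (r + 1) = (X (insert a A) B).card * (r + 1) * N := by ring
            _ = (X A B).card * s * N := by rw [h1]
            _ = (X A B).card * (s * N) := by ring
            _ ≤ (X A B).card * (B.card * (r + 1)) := by
                apply Nat.mul_le_mul_left
                have h5 : s ≤ r + 1 := by omega
                have h6 : s * N = s * A.card + s * (r + 1) := by
                  calc s * N = s * (A.card + r + 1) := by rw [← hr]
                    _ = _ := by ring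
                have h7 : B.card * (r + 1) = A.card * (r + 1) + s * (r + 1) := by rw [hs]; ring
                have h8 : s * A.card ≤ A.card * (r + 1) := by
                  rw [mul_comm]; exact Nat.mul_le_mul_left _ h5
                omega
            _ = (X A B).card * B.card * (r + 1) := by ring
        exact Nat.le_of_mul_le_mul_right h4 (Nat.succ_pos r)
      · have hBA : B.card - A.card = 0 := by omega
        rw [hBA, mul_zero, hNA] at h1
        have h5 : (X (insert a A) B).card = 0 := by
          rcases Nat.mul_eq_zero.mp h1 with h6 | h6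
          · exact h6
          · omega
        rw [h5]; simp
    rw [Finset.card_insert_of_notMem ha, pow_succ, pow_succ]
    calc (X (insert a A) B).card * (N ^ A.card * N) = (X (insert a A) B).card * N * N ^ A.card := by ring
      _ ≤ (X A B).card * B.card * N ^ A.card := Nat.mul_le_mul_right _ h2
      _ = (X A B).card * N ^ A.card * B.card := by ring
      _ ≤ N.factorial * B.card ^ A.card * B.card := Nat.mul_le_mul_right _ ih
      _ = N.factorial * (B.card ^ A.card * B.card) := by ring

/-- bound for binomial coefficients. -/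
lemma choose_bound (n a : ℕ) (ha : 1 ≤ a) : (n.choose a : ℝ) ≤ (3 * n / a : ℝ) ^ a := by
  have ha' : (0 : ℝ) < a := by exact_mod_cast ha
  have h1 : (n.choose a : ℝ) ≤ (n : ℝ) ^ a / (a.factorial : ℝ) := Nat.choose_le_pow_div a n
  have h2 : (a : ℝ) ^ a / (a.factorial : ℝ) ≤ 3 ^ a := by
    refine (Real.pow_div_factorial_le_exp (a : ℝ) ha'.le a).trans ?_
    have h3 : Real.exp (a : ℝ) = Real.exp 1 ^ a := by
      rw [← Real.exp_nat_mul, mul_one]
    rw [h3]
    exact pow_le_pow_left₀ (Real.exp_pos 1).le Real.exp_one_lt_three.le a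
  have hf : (0 : ℝ) < (a.factorial : ℝ) := by exact_mod_cast a.factorial_pos
  calc (n.choose a : ℝ) ≤ (n : ℝ) ^ a / (a.factorial : ℝ) := h1
    _ = (n / a : ℝ) ^ a * ((a : ℝ) ^ a / (a.factorial : ℝ)) := by
        rw [div_pow]
        field_simp
    _ ≤ (n / a : ℝ) ^ a * 3 ^ a := by
        apply mul_le_mul_of_nonneg_left h2; positivity
    _ = (3 * n / a : ℝ) ^ a := by rw [← mul_pow]; congr 1; ring

/-- each term of the union bound. -/
lemma term_bound (a : ℕ) (ha : 1 ≤ a) (haN : 2 * a ≤ N) :
    (N.choose a : ℝ) * (N.choose (3 * a / 2) : ℝ) * (((3 * a / 2 : ℕ) : ℝ) / N) ^ (a * 25) ≤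
      (1 / 8 : ℝ) ^ a := by
  set b := 3 * a / 2 with hb
  have hb1 : 1 ≤ b := by omega
  have hba : b ≤ 2 * a := by omega
  have hbN : 4 * b ≤ 3 * N := by omega
  have hN : (0 : ℝ) < N := by
    have : 0 < N := by omega
    exact_mod_cast this
  have hb' : (0 : ℝ) < b := by exact_mod_cast hb1
  have ha' : (0 : ℝ) < a := by exact_mod_cast ha
  have hba' : (b : ℝ) ≤ 2 * a := by exact_mod_cast hba
  have hbN' : 4 * (b : ℝ) ≤ 3 * N := by exact_mod_cast hbN
  have e1 : (N.choose a : ℝ) ≤ (6 * N / b : ℝ) ^ a := by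
    refine (choose_bound N a ha).trans ?_
    apply pow_le_pow_left₀ (by positivity)
    rw [div_le_div_iff₀ ha' hb']
    nlinarith
  have e2 : (N.choose b : ℝ) ≤ ((3 * N / b : ℝ) ^ 2) ^ a := by
    refine (choose_bound N b hb1).trans ?_
    rw [← pow_mul]
    apply pow_le_pow_right₀ _ (by omega)
    rw [le_div_iff₀ hb']
    nlinarith
  have e3 : (((b : ℕ) : ℝ) / N) ^ (a * 25) = (((b : ℝ) / N) ^ 25) ^ a := by
    rw [← pow_mul, mul_comm]
  rw [e3]
  calc (N.choose a : ℝ) * (N.choose b : ℝ) * (((b : ℝ) / N) ^ 25) ^ a ≤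
        (6 * N / b : ℝ) ^ a * ((3 * N / b : ℝ) ^ 2) ^ a * (((b : ℝ) / N) ^ 25) ^ a := by
        apply mul_le_mul_of_nonneg_right _ (by positivity)
        apply mul_le_mul e1 e2 (by positivity) (by positivity)
    _ = (54 * ((b : ℝ) / N) ^ 22) ^ a := by
        rw [← mul_pow, ← mul_pow]
        congr 1
        field_simp
        ring
    _ ≤ (1 / 8 : ℝ) ^ a := by
        apply pow_le_pow_left₀ (by positivity)
        have h1 : (b : ℝ) / N ≤ 3 / 4 := by
          rw [div_le_div_iff₀ hN (by norm_num)]; linarith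
        have h2 : ((b : ℝ) / N) ^ 22 ≤ (3 / 4 : ℝ) ^ 22 := pow_le_pow_left₀ (by positivity) h1 22
        have h3 : 54 * (3 / 4 : ℝ) ^ 22 ≤ 1 / 8 := by norm_num
        linarith

lemma geo (m : ℕ) : ∑ a ∈ Finset.Icc 1 m, (1 / 8 : ℝ) ^ a ≤ 1 / 7 := by
  have h : ∑ a ∈ Finset.Icc 1 m, (1 / 8 : ℝ) ^ a = 1 / 7 - (1 / 8 : ℝ) ^ m / 7 := by
    induction m with
    | zero => simp
    | succ m ih =>
      rw [Finset.sum_Icc_succ_top (by omega), ih, pow_succ]
      ring
  rw [h]
  have : (0 : ℝ) < (1 / 8 : ℝ) ^ m := by positivity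
  linarith

/-- bad tuples. -/
def Bad (N : ℕ) : Finset (Fin 25 → Equiv.Perm (Fin N)) :=
  univ.filter (fun F => ∃ A : Finset (Fin N), ∃ B : Finset (Fin N), 1 ≤ A.card ∧ 2 * A.card ≤ N ∧
    B.card = 3 * A.card / 2 ∧ ∀ i, ∀ x ∈ A, F i x ∈ B)

lemma card_Bad (N : ℕ) : ((Bad N).card : ℝ) ≤ (N.factorial : ℝ) ^ 25 / 7 := by
  have hsub : Bad N ⊆ (Finset.Icc 1 (N / 2)).biUnion (fun a =>
      (Finset.powersetCard a univ).biUnion (fun A => (Finset.powersetCard (3 * a / 2) univ).biUnion
        (fun B => Fintype.piFinset (fun _ : Fin 25 => X A B)))) := by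
    intro F hF
    simp only [Bad, Finset.mem_filter, Finset.mem_univ, true_and] at hF
    obtain ⟨A, B, h1, h2, h3, h4⟩ := hF
    rw [Finset.mem_biUnion]
    refine ⟨A.card, Finset.mem_Icc.mpr ⟨h1, by omega⟩, ?_⟩
    rw [Finset.mem_biUnion]
    refine ⟨A, Finset.mem_powersetCard.mpr ⟨Finset.subset_univ _, rfl⟩, ?_⟩
    rw [Finset.mem_biUnion]
    refine ⟨B, Finset.mem_powersetCard.mpr ⟨Finset.subset_univ _, h3⟩, ?_⟩
    rw [Fintype.mem_piFinset]
    intro i
    rw [mem_X]
    exact h4 i
  have h1 : ((Bad N).card : ℝ) ≤ ∑ a ∈ Finset.Icc 1 (N / 2),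
      ∑ A ∈ Finset.powersetCard a (univ : Finset (Fin N)),
      ∑ B ∈ Finset.powersetCard (3 * a / 2) (univ : Finset (Fin N)),
        ((Fintype.piFinset (fun _ : Fin 25 => X A B)).card : ℝ) := by
    have h2 := (Finset.card_le_card hsub).trans (Finset.card_biUnion_le)
    have h3 : ∑ a ∈ Finset.Icc 1 (N / 2), ((Finset.powersetCard a univ).biUnion (fun A =>
        (Finset.powersetCard (3 * a / 2) univ).biUnion
        (fun B => Fintype.piFinset (fun _ : Fin 25 => X (N := N) A B)))).card ≤
        ∑ a ∈ Finset.Icc 1 (N / 2), ∑ A ∈ Finset.powersetCard a (univ : Finset (Fin N)),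
      ∑ B ∈ Finset.powersetCard (3 * a / 2) (univ : Finset (Fin N)),
        (Fintype.piFinset (fun _ : Fin 25 => X A B)).card := by
      refine Finset.sum_le_sum (fun a _ => ?_)
      refine Finset.card_biUnion_le.trans (Finset.sum_le_sum (fun A _ => ?_))
      exact Finset.card_biUnion_le
    exact_mod_cast h2.trans h3
  refine h1.trans ?_
  have h4 : ∀ a ∈ Finset.Icc 1 (N / 2), ∑ A ∈ Finset.powersetCard a (univ : Finset (Fin N)),
      ∑ B ∈ Finset.powersetCard (3 * a / 2) univ,
        ((Fintype.piFinset (fun _ : Fin 25 => X A B)).card : ℝ) ≤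
        (N.factorial : ℝ) ^ 25 * (1 / 8 : ℝ) ^ a := by
    intro a ha
    rw [Finset.mem_Icc] at ha
    have haN : 2 * a ≤ N := by omega
    have hN : (0 : ℝ) < N := by
      have : 0 < N := by omega
      exact_mod_cast this
    have h5 : ∀ A ∈ Finset.powersetCard a (univ : Finset (Fin N)),
        ∀ B ∈ Finset.powersetCard (3 * a / 2) (univ : Finset (Fin N)),
        ((Fintype.piFinset (fun _ : Fin 25 => X A B)).card : ℝ) ≤
          (N.factorial : ℝ) ^ 25 * (((3 * a / 2 : ℕ) : ℝ) / N) ^ (a * 25) := by
      intro A hA B hB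
      rw [Finset.mem_powersetCard] at hA hB
      rw [Fintype.card_piFinset]
      simp only [Finset.prod_const, Finset.card_univ, Fintype.card_fin]
      push_cast
      have h6 : ((X A B).card : ℝ) ≤ (N.factorial : ℝ) * (((3 * a / 2 : ℕ) : ℝ) / N) ^ a := by
        have h7 := card_X_le B A
        rw [hA.2, hB.2] at h7
        have h8 : ((X A B).card : ℝ) * (N : ℝ) ^ a ≤ (N.factorial : ℝ) * ((3 * a / 2 : ℕ) : ℝ) ^ a := by
          exact_mod_cast h7
        rw [div_pow, ← mul_div_assoc, le_div_iff₀ (by positivity)]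
        exact h8
      calc ((X A B).card : ℝ) ^ 25 ≤ ((N.factorial : ℝ) * (((3 * a / 2 : ℕ) : ℝ) / N) ^ a) ^ 25 :=
            pow_le_pow_left₀ (by positivity) h6 25
        _ = _ := by rw [mul_pow, ← pow_mul]
    calc ∑ A ∈ Finset.powersetCard a (univ : Finset (Fin N)),
      ∑ B ∈ Finset.powersetCard (3 * a / 2) univ,
        ((Fintype.piFinset (fun _ : Fin 25 => X A B)).card : ℝ) ≤
        ∑ A ∈ Finset.powersetCard a (univ : Finset (Fin N)),
      ∑ B ∈ Finset.powersetCard (3 * a / 2) (univ : Finset (Fin N)),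
        (N.factorial : ℝ) ^ 25 * (((3 * a / 2 : ℕ) : ℝ) / N) ^ (a * 25) :=
          Finset.sum_le_sum (fun A hA => Finset.sum_le_sum (fun B hB => h5 A hA B hB))
      _ = (N.factorial : ℝ) ^ 25 * ((N.choose a : ℝ) * (N.choose (3 * a / 2) : ℝ) *
          (((3 * a / 2 : ℕ) : ℝ) / N) ^ (a * 25)) := by
          simp only [Finset.sum_const, Finset.card_powersetCard, Finset.card_univ,
            Fintype.card_fin, nsmul_eq_mul]
          ring
      _ ≤ (N.factorial : ℝ) ^ 25 * (1 / 8 : ℝ) ^ a :=
          mul_le_mul_of_nonneg_left (term_bound a ha.1 haN) (by positivity)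
  calc _ ≤ ∑ a ∈ Finset.Icc 1 (N / 2), (N.factorial : ℝ) ^ 25 * (1 / 8 : ℝ) ^ a :=
        Finset.sum_le_sum h4
    _ = (N.factorial : ℝ) ^ 25 * ∑ a ∈ Finset.Icc 1 (N / 2), (1 / 8 : ℝ) ^ a := by
        rw [Finset.mul_sum]
    _ ≤ (N.factorial : ℝ) ^ 25 * (1 / 7) := mul_le_mul_of_nonneg_left (geo _) (by positivity)
    _ = _ := by ring

/-- existence of good permutations. -/
theorem exists_good (N : ℕ) : ∃ F : Fin 25 → Equiv.Perm (Fin N),
    (∀ A B : Finset (Fin N), 1 ≤ A.card → 2 * A.card ≤ N → (∀ i, ∀ x ∈ A, F i x ∈ B) →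
      3 * A.card / 2 < B.card) ∧
    (∀ A B : Finset (Fin N), 1 ≤ A.card → 2 * A.card ≤ N → (∀ i, ∀ x ∈ A, (F i).symm x ∈ B) →
      3 * A.card / 2 < B.card) := by
  classical
  have hinv : ((Bad N).image (fun F i => (F i)⁻¹)).card ≤ (Bad N).card := Finset.card_image_le
  have hlt : ((Bad N) ∪ (Bad N).image (fun F i => (F i)⁻¹)).card <
      (univ : Finset (Fin 25 → Equiv.Perm (Fin N))).card := by
    have h1 : (((Bad N) ∪ (Bad N).image (fun F i => (F i)⁻¹)).card : ℝ) <
        ((univ : Finset (Fin 25 → Equiv.Perm (Fin N))).card : ℝ) := by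
      have h2 : (((Bad N) ∪ (Bad N).image (fun F i => (F i)⁻¹)).card : ℝ) ≤
          (Bad N).card + (Bad N).card := by
        have := (Finset.card_union_le (Bad N) ((Bad N).image (fun F i => (F i)⁻¹))).trans
          (Nat.add_le_add_left hinv _)
        exact_mod_cast this
      have h3 := card_Bad N
      have h4 : ((univ : Finset (Fin 25 → Equiv.Perm (Fin N))).card : ℝ) =
          (N.factorial : ℝ) ^ 25 := by
        rw [Finset.card_univ, Fintype.card_fun, Fintype.card_perm, Fintype.card_fin,
          Fintype.card_fin]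
        push_cast; rfl
      have h5 : (0 : ℝ) < (N.factorial : ℝ) ^ 25 := by
        have := N.factorial_pos
        positivity
      rw [h4]
      linarith
    exact_mod_cast h1
  obtain ⟨F, -, hF⟩ := Finset.exists_mem_notMem_of_card_lt_card hlt
  rw [Finset.mem_union, not_or] at hF
  refine ⟨F, ?_, ?_⟩
  · intro A B h1 h2 h3
    by_contra hcon
    push Not at hcon
    apply hF.1
    have hle : 3 * A.card / 2 ≤ (univ : Finset (Fin N)).card := by
      rw [Finset.card_univ, Fintype.card_fin]; omega
    obtain ⟨B', hB1, -, hB2⟩ := Finset.exists_subsuperset_card_eq (Finset.subset_univ B) hcon hle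
    simp only [Bad, Finset.mem_filter, Finset.mem_univ, true_and]
    exact ⟨A, B', h1, h2, hB2, fun i x hx => hB1 (h3 i x hx)⟩
  · intro A B h1 h2 h3
    by_contra hcon
    push Not at hcon
    apply hF.2
    have hle : 3 * A.card / 2 ≤ (univ : Finset (Fin N)).card := by
      rw [Finset.card_univ, Fintype.card_fin]; omega
    obtain ⟨B', hB1, -, hB2⟩ := Finset.exists_subsuperset_card_eq (Finset.subset_univ B) hcon hle
    rw [Finset.mem_image]
    refine ⟨fun i => (F i)⁻¹, ?_, ?_⟩
    · simp only [Bad, Finset.mem_filter, Finset.mem_univ, true_and]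
      exact ⟨A, B', h1, h2, hB2, fun i x hx => hB1 (h3 i x hx)⟩
    · funext i; simp

end Pool.Agent.V11149.RandomBij
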