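import Mathlib

set_option autoImplicit false

namespace Pool.Agent.V11149.ThreeGraph

section Gen

variable {α : Type*} [DecidableEq α]

/-- two elements in each class -/
def T (c : α → Bool) (e : Finset α) : Prop :=
  e.card = 4 ∧ ∀ v ∈ e, (e.filter (fun w => c v = c w)).card = 2

/-- hyperedge indicator -/
def hh (H : Finset (Finset α)) (a b x y : α) : ZMod 2 :=
  if ({a, b, x, y} : Finset α) ∈ H then 1 else 0

theorem hh_swap1 (H : Finset (Finset α)) (a b x y : α) : hh H a b x y = hh H b a x y := by
  unfold hh
  have : ({a, b, x, y} : Finset α) = {b, a, x, y} := by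
    ext z; simp only [Finset.mem_insert, Finset.mem_singleton]; tauto
  rw [this]

theorem hh_swap2 (H : Finset (Finset α)) (a b x y : α) : hh H a b x y = hh H a b y x := by
  unfold hh
  have : ({a, b, x, y} : Finset α) = {a, b, y, x} := by
    ext z; simp only [Finset.mem_insert, Finset.mem_singleton]; tauto
  rw [this]

theorem hh_swap3 (H : Finset (Finset α)) (a b x y : α) : hh H a b x y = hh H x y a b := by
  unfold hh
  have : ({a, b, x, y} : Finset α) = {x, y, a, b} := by
    ext z; simp only [Finset.mem_insert, Finset.mem_singleton]; tauto
  rw [this]

theorem T_iff (c : α → Bool) (e : Finset α) :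
    T c e ↔ ∃ p p' q q', p ≠ p' ∧ q ≠ q' ∧ c p = false ∧ c p' = false ∧ c q = true ∧ c q' = true ∧
      e = {p, p', q, q'} := by
  constructor
  · rintro ⟨h4, h2⟩
    have hF : (e.filter (fun w => c w = false)).card + (e.filter (fun w => ¬ c w = false)).card = 4 := by
      rw [Finset.card_filter_add_card_filter_not, h4]
    have hne : e.Nonempty := by
      rw [← Finset.card_pos, h4]; norm_num
    obtain ⟨v, hv⟩ := hne
    have hv2 := h2 v hv
    have key : (e.filter (fun w => c w = false)).card = 2 ∧ (e.filter (fun w => ¬ c w = false)).card = 2 := by
      cases hc : c v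
      · have : e.filter (fun w => c v = c w) = e.filter (fun w => c w = false) := by
          apply Finset.filter_congr; intro w _; rw [hc]; exact eq_comm
        rw [this] at hv2
        omega
      · have : e.filter (fun w => c v = c w) = e.filter (fun w => ¬ c w = false) := by
          apply Finset.filter_congr; intro w _; rw [hc]; cases c w <;> simp
        rw [this] at hv2
        omega
    obtain ⟨k1, k2⟩ := key
    rw [Finset.card_eq_two] at k1 k2
    obtain ⟨p, p', hpp, h1⟩ := k1
    obtain ⟨q, q', hqq, h2'⟩ := k2
    have m1 : ∀ z, z ∈ e.filter (fun w => c w = false) ↔ z = p ∨ z = p' := by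
      intro z; rw [h1]; simp
    have m2 : ∀ z, z ∈ e.filter (fun w => ¬ c w = false) ↔ z = q ∨ z = q' := by
      intro z; rw [h2']; simp
    simp only [Finset.mem_filter] at m1 m2
    refine ⟨p, p', q, q', hpp, hqq, ((m1 p).2 (Or.inl rfl)).2, ((m1 p').2 (Or.inr rfl)).2, ?_, ?_, ?_⟩
    · have := ((m2 q).2 (Or.inl rfl)).2; simpa using this
    · have := ((m2 q').2 (Or.inr rfl)).2; simpa using this
    · ext z
      simp only [Finset.mem_insert, Finset.mem_singleton]
      constructor
      · intro hz
        by_cases hcz : c z = false
        · rcases (m1 z).1 ⟨hz, hcz⟩ with h | h <;> tauto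
        · rcases (m2 z).1 ⟨hz, hcz⟩ with h | h <;> tauto
      · rintro (h | h | h | h)
        · exact ((m1 z).2 (Or.inl h)).1
        · exact ((m1 z).2 (Or.inr h)).1
        · exact ((m2 z).2 (Or.inl h)).1
        · exact ((m2 z).2 (Or.inr h)).1
  · rintro ⟨p, p', q, q', hpp, hqq, cp, cp', cq, cq', rfl⟩
    have n1 : p ≠ q := by rintro rfl; rw [cp] at cq; simp at cq
    have n2 : p ≠ q' := by rintro rfl; rw [cp] at cq'; simp at cq'
    have n3 : p' ≠ q := by rintro rfl; rw [cp'] at cq; simp at cq
    have n4 : p' ≠ q' := by rintro rfl; rw [cp'] at cq'; simp at cq'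
    refine ⟨?_, ?_⟩
    · have a1 : q ∉ ({q'} : Finset α) := by rw [Finset.mem_singleton]; exact hqq
      have a2 : p' ∉ ({q, q'} : Finset α) := by
        rw [Finset.mem_insert, Finset.mem_singleton]; rintro (h | h)
        · exact n3 h
        · exact n4 h
      have a3 : p ∉ ({p', q, q'} : Finset α) := by
        rw [Finset.mem_insert, Finset.mem_insert, Finset.mem_singleton]; rintro (h | h | h)
        · exact hpp h
        · exact n1 h
        · exact n2 h
      rw [Finset.card_insert_of_notMem a3, Finset.card_insert_of_notMem a2,
        Finset.card_insert_of_notMem a1, Finset.card_singleton]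
    · intro v hv
      simp only [Finset.mem_insert, Finset.mem_singleton] at hv
      have e1 : ({p, p', q, q'} : Finset α).filter (fun w => c w = false) = {p, p'} := by
        ext z; simp only [Finset.mem_filter, Finset.mem_insert, Finset.mem_singleton]
        constructor
        · rintro ⟨h | h | h | h, hz⟩
          · tauto
          · tauto
          · subst h; rw [cq] at hz; simp at hz
          · subst h; rw [cq'] at hz; simp at hz
        · rintro (h | h) <;> subst h <;> simp [*]
      have e2 : ({p, p', q, q'} : Finset α).filter (fun w => c w = true) = {q, q'} := by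
        ext z; simp only [Finset.mem_filter, Finset.mem_insert, Finset.mem_singleton]
        constructor
        · rintro ⟨h | h | h | h, hz⟩
          · subst h; rw [cp] at hz; simp at hz
          · subst h; rw [cp'] at hz; simp at hz
          · tauto
          · tauto
        · rintro (h | h) <;> subst h <;> simp [*]
      have hcases : c v = false ∨ c v = true := by cases c v <;> simp
      rcases hcases with hc | hc
      · have : ({p, p', q, q'} : Finset α).filter (fun w => c v = c w) =
            ({p, p', q, q'} : Finset α).filter (fun w => c w = false) := by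
          apply Finset.filter_congr; intro w _; rw [hc]; exact eq_comm
        rw [this, e1, Finset.card_pair hpp]
      · have : ({p, p', q, q'} : Finset α).filter (fun w => c v = c w) =
            ({p, p', q, q'} : Finset α).filter (fun w => c w = true) := by
          apply Finset.filter_congr; intro w _; rw [hc]; exact eq_comm
        rw [this, e2, Finset.card_pair hqq]

theorem T_mk (c : α → Bool) {b : Bool} {p p' q q' : α} (hpp : p ≠ p') (hqq : q ≠ q')
    (cp : c p = b) (cp' : c p' = b) (cq : c q = !b) (cq' : c q' = !b) : T c {p, p', q, q'} := by
  rw [T_iff]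
  cases b
  · exact ⟨p, p', q, q', hpp, hqq, cp, cp', by simpa using cq, by simpa using cq', rfl⟩
  · refine ⟨q, q', p, p', hqq, hpp, by simpa using cq, by simpa using cq', cp, cp', ?_⟩
    ext z; simp only [Finset.mem_insert, Finset.mem_singleton]; tauto

/-- counting hyperedges in a 5-set mod 2 -/
theorem card_five (c : α → Bool) (H : Finset (Finset α)) (hT : ∀ e ∈ H, T c e) {b : Bool}
    {i j k x y : α} (hij : i ≠ j) (hjk : j ≠ k) (hik : i ≠ k) (hxy : x ≠ y)
    (ci : c i = b) (cj : c j = b) (ck : c k = b) (cx : c x = !b) (cy : c y = !b) :
    (((H.filter (fun e => e ⊆ ({i, j, k, x, y} : Finset α))).card : ℕ) : ZMod 2)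
      = hh H i j x y + hh H j k x y + hh H i k x y := by
  have nix : ∀ u v, c u = b → c v = !b → u ≠ v := by
    rintro u v hu hv rfl; rw [hu] at hv; cases b <;> simp at hv
  have hix := nix i x ci cx
  have hiy := nix i y ci cy
  have hjx := nix j x cj cx
  have hjy := nix j y cj cy
  have hkx := nix k x ck cx
  have hky := nix k y ck cy
  have hset : H.filter (fun e => e ⊆ ({i, j, k, x, y} : Finset α)) =
      ({({i, j, x, y} : Finset α), {j, k, x, y}, {i, k, x, y}} : Finset (Finset α)).filter (fun e => e ∈ H) := by
    ext e
    simp only [Finset.mem_filter, Finset.mem_insert, Finset.mem_singleton]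
    constructor
    · rintro ⟨he, hs⟩
      refine ⟨?_, he⟩
      obtain ⟨h4, h2⟩ := hT e he
      -- the elements of class b in e: exactly two among i j k
      have hsub : ∀ z ∈ e, z = i ∨ z = j ∨ z = k ∨ z = x ∨ z = y := by
        intro z hz; have := hs hz; simpa using this
      have hFb : (e.filter (fun w => c w = b)).card ≤ 2 := by
        by_cases hne : (e.filter (fun w => c w = b)).Nonempty
        · obtain ⟨v, hv⟩ := hne
          rw [Finset.mem_filter] at hv
          have := h2 v hv.1
          rw [← this]
          apply le_of_eq
          congr 1
          apply Finset.filter_congr; intro w _; rw [hv.2]; exact eq_comm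
        · rw [Finset.not_nonempty_iff_eq_empty] at hne; rw [hne]; simp
      have hFnb : (e.filter (fun w => ¬ c w = b)).card ≤ 2 := by
        have hh' : e.filter (fun w => ¬ c w = b) ⊆ {x, y} := by
          intro z hz
          rw [Finset.mem_filter] at hz
          rcases hsub z hz.1 with h | h | h | h | h
          · exact absurd (h ▸ ci) hz.2
          · exact absurd (h ▸ cj) hz.2
          · exact absurd (h ▸ ck) hz.2
          · simp [h]
          · simp [h]
        exact (Finset.card_le_card hh').trans (by rw [Finset.card_pair hxy])
      have htot : (e.filter (fun w => c w = b)).card + (e.filter (fun w => ¬ c w = b)).card = 4 := by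
        rw [Finset.card_filter_add_card_filter_not, h4]
      have hE : e.filter (fun w => ¬ c w = b) = {x, y} := by
        apply Finset.eq_of_subset_of_card_le
        · intro z hz
          rw [Finset.mem_filter] at hz
          rcases hsub z hz.1 with h | h | h | h | h
          · exact absurd (h ▸ ci) hz.2
          · exact absurd (h ▸ cj) hz.2
          · exact absurd (h ▸ ck) hz.2
          · simp [h]
          · simp [h]
        · rw [Finset.card_pair hxy]; omega
      have hxe : x ∈ e := by
        have : x ∈ e.filter (fun w => ¬ c w = b) := by rw [hE]; simp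
        exact (Finset.mem_filter.1 this).1
      have hye : y ∈ e := by
        have : y ∈ e.filter (fun w => ¬ c w = b) := by rw [hE]; simp
        exact (Finset.mem_filter.1 this).1
      have hF2 : (e.filter (fun w => c w = b)).card = 2 := by omega
      have memb : ∀ z, z ∈ e ↔ z ∈ e.filter (fun w => c w = b) ∨ z = x ∨ z = y := by
        intro z
        constructor
        · intro hz
          by_cases hc : c z = b
          · exact Or.inl (Finset.mem_filter.2 ⟨hz, hc⟩)
          · right
            have : z ∈ e.filter (fun w => ¬ c w = b) := Finset.mem_filter.2 ⟨hz, hc⟩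
            rw [hE] at this; simpa using this
        · rintro (h | h | h)
          · exact (Finset.mem_filter.1 h).1
          · exact h ▸ hxe
          · exact h ▸ hye
      have hFsub : e.filter (fun w => c w = b) ⊆ {i, j, k} := by
        intro z hz
        rw [Finset.mem_filter] at hz
        rcases hsub z hz.1 with h | h | h | h | h
        · simp [h]
        · simp [h]
        · simp [h]
        · rw [h, cx] at hz; cases b <;> simp at hz
        · rw [h, cy] at hz; cases b <;> simp at hz
      -- one of i,j,k missing
      have h3 : ({i, j, k} : Finset α).card = 3 := by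
        have b1 : j ∉ ({k} : Finset α) := by rw [Finset.mem_singleton]; exact hjk
        have b2 : i ∉ ({j, k} : Finset α) := by
          rw [Finset.mem_insert, Finset.mem_singleton]; rintro (h | h)
          · exact hij h
          · exact hik h
        rw [Finset.card_insert_of_notMem b2, Finset.card_insert_of_notMem b1, Finset.card_singleton]
      have hmiss : ∃ z ∈ ({i, j, k} : Finset α), z ∉ e.filter (fun w => c w = b) := by
        by_contra hcon
        push Not at hcon
        have : ({i, j, k} : Finset α) ⊆ e.filter (fun w => c w = b) := fun z hz => hcon z hz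
        have := Finset.card_le_card this
        omega
      obtain ⟨z, hz, hznot⟩ := hmiss
      have hFeq : e.filter (fun w => c w = b) = ({i, j, k} : Finset α).erase z := by
        apply Finset.eq_of_subset_of_card_le
        · intro w hw
          rw [Finset.mem_erase]
          refine ⟨?_, hFsub hw⟩
          rintro rfl; exact hznot hw
        · rw [Finset.card_erase_of_mem hz, h3, hF2]
      simp only [Finset.mem_insert, Finset.mem_singleton] at hz
      rcases hz with rfl | rfl | rfl
      · right; left
        ext w; rw [memb w, hFeq]
        simp only [Finset.mem_erase, Finset.mem_insert, Finset.mem_singleton]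
        constructor
        · rintro (⟨h1, h | h | h⟩ | h | h) <;> tauto
        · rintro (h | h | h | h)
          · left; subst h; exact ⟨hij.symm, by tauto⟩
          · left; subst h; exact ⟨hik.symm, by tauto⟩
          · tauto
          · tauto
      · right; right
        ext w; rw [memb w, hFeq]
        simp only [Finset.mem_erase, Finset.mem_insert, Finset.mem_singleton]
        constructor
        · rintro (⟨h1, h | h | h⟩ | h | h) <;> tauto
        · rintro (h | h | h | h)
          · left; subst h; exact ⟨hij, by tauto⟩
          · left; subst h; exact ⟨hjk.symm, by tauto⟩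
          · tauto
          · tauto
      · left
        ext w; rw [memb w, hFeq]
        simp only [Finset.mem_erase, Finset.mem_insert, Finset.mem_singleton]
        constructor
        · rintro (⟨h1, h | h | h⟩ | h | h) <;> tauto
        · rintro (h | h | h | h)
          · left; subst h; exact ⟨hik, by tauto⟩
          · left; subst h; exact ⟨hjk, by tauto⟩
          · tauto
          · tauto
    · rintro ⟨h | h | h, he⟩
      · refine ⟨he, ?_⟩
        rw [h]; intro w hw; simp only [Finset.mem_insert, Finset.mem_singleton] at hw ⊢; tauto
      · refine ⟨he, ?_⟩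
        rw [h]; intro w hw; simp only [Finset.mem_insert, Finset.mem_singleton] at hw ⊢; tauto
      · refine ⟨he, ?_⟩
        rw [h]; intro w hw; simp only [Finset.mem_insert, Finset.mem_singleton] at hw ⊢; tauto
  rw [hset, Finset.card_filter]
  push_cast
  have d1 : ({i, j, x, y} : Finset α) ≠ {j, k, x, y} := by
    intro h
    have : i ∈ ({j, k, x, y} : Finset α) := by rw [← h]; simp
    simp only [Finset.mem_insert, Finset.mem_singleton] at this
    tauto
  have d2 : ({i, j, x, y} : Finset α) ≠ {i, k, x, y} := by
    intro h
    have : j ∈ ({i, k, x, y} : Finset α) := by rw [← h]; simp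
    simp only [Finset.mem_insert, Finset.mem_singleton] at this
    rcases this with h | h | h | h
    · exact hij h.symm
    · exact hjk h
    · exact hjx h
    · exact hjy h
  have d3 : ({j, k, x, y} : Finset α) ≠ {i, k, x, y} := by
    intro h
    have : j ∈ ({i, k, x, y} : Finset α) := by rw [← h]; simp
    simp only [Finset.mem_insert, Finset.mem_singleton] at this
    rcases this with h | h | h | h
    · exact hij h.symm
    · exact hjk h
    · exact hjx h
    · exact hjy h
  rw [Finset.sum_insert, Finset.sum_insert, Finset.sum_singleton]
  · unfold hh; ring
  · simp [d3]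
  · simp [d1, d2]

end Gen

end Pool.Agent.V11149.ThreeGraph
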