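import Pool.Agent.V11149.ThreeGraph

set_option autoImplicit false

namespace Pool.Agent.V11149.ThreeGraph

section HG

variable {α : Type*} [DecidableEq α] [Fintype α]

instance decT (c : α → Bool) (e : Finset α) : Decidable (T c e) := by
  unfold T; infer_instance

/-- the three-graph with class function `c` and (symmetric) bipartite graph function `g` -/
def HG (c : α → Bool) (g : α → α → ZMod 2) : Finset (Finset α) :=
  Finset.univ.filter (fun e => T c e ∧
    (∑ p ∈ e.filter (fun w => c w = false), ∑ q ∈ e.filter (fun w => c w = true), g p q) = 1)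

theorem mem_HG_mk (c : α → Bool) (g : α → α → ZMod 2) (hg : ∀ a b, g a b = g b a) {b : Bool}
    {p p' q q' : α} (hpp : p ≠ p') (hqq : q ≠ q')
    (cp : c p = b) (cp' : c p' = b) (cq : c q = !b) (cq' : c q' = !b) :
    ({p, p', q, q'} : Finset α) ∈ HG c g ↔ g p q + g p' q + g p q' + g p' q' = 1 := by
  unfold HG
  rw [Finset.mem_filter]
  have hT := T_mk c hpp hqq cp cp' cq cq'
  simp only [Finset.mem_univ, true_and, hT]
  cases b
  · have e1 : ({p, p', q, q'} : Finset α).filter (fun w => c w = false) = {p, p'} := by
      ext z; simp only [Finset.mem_filter, Finset.mem_insert, Finset.mem_singleton]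
      constructor
      · rintro ⟨h | h | h | h, hz⟩
        · tauto
        · tauto
        · subst h; rw [cq] at hz; simp at hz
        · subst h; rw [cq'] at hz; simp at hz
      · rintro (h | h) <;> subst h <;> simp [*]
    have e2 : ({p, p', q, q'} : Finset α).filter (fun w => c w = true) = {q, q'} := by
      ext z; simp only [Finset.mem_filter, Finset.mem_insert, Finset.mem_singleton]
      constructor
      · rintro ⟨h | h | h | h, hz⟩
        · subst h; rw [cp] at hz; simp at hz
        · subst h; rw [cp'] at hz; simp at hz
        · tauto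
        · tauto
      · rintro (h | h) <;> subst h <;> simp [*]
    rw [e1, e2, Finset.sum_pair hpp, Finset.sum_pair hqq, Finset.sum_pair hqq]
    constructor
    · intro h; rw [← h]; ring
    · intro h; rw [← h]; ring
  · have e1 : ({p, p', q, q'} : Finset α).filter (fun w => c w = false) = {q, q'} := by
      ext z; simp only [Finset.mem_filter, Finset.mem_insert, Finset.mem_singleton]
      constructor
      · rintro ⟨h | h | h | h, hz⟩
        · subst h; rw [cp] at hz; simp at hz
        · subst h; rw [cp'] at hz; simp at hz
        · tauto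
        · tauto
      · rintro (h | h) <;> subst h <;> simp [*]
    have e2 : ({p, p', q, q'} : Finset α).filter (fun w => c w = true) = {p, p'} := by
      ext z; simp only [Finset.mem_filter, Finset.mem_insert, Finset.mem_singleton]
      constructor
      · rintro ⟨h | h | h | h, hz⟩
        · tauto
        · tauto
        · subst h; rw [cq] at hz; simp at hz
        · subst h; rw [cq'] at hz; simp at hz
      · rintro (h | h) <;> subst h <;> simp [*]
    rw [e1, e2, Finset.sum_pair hqq, Finset.sum_pair hpp, Finset.sum_pair hpp]
    rw [hg q p, hg q p', hg q' p, hg q' p']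
    constructor
    · intro h; rw [← h]; ring
    · intro h; rw [← h]; ring

theorem HG_T (c : α → Bool) (g : α → α → ZMod 2) : ∀ e ∈ HG c g, T c e := by
  intro e he
  unfold HG at he
  rw [Finset.mem_filter] at he
  exact he.2.1

theorem zmod2_cases (a : ZMod 2) : a = 0 ∨ a = 1 := by
  revert a; decide

theorem hh_HG (c : α → Bool) (g : α → α → ZMod 2) (hg : ∀ a b, g a b = g b a) {b : Bool}
    {p p' q q' : α} (hpp : p ≠ p') (hqq : q ≠ q')
    (cp : c p = b) (cp' : c p' = b) (cq : c q = !b) (cq' : c q' = !b) :
    hh (HG c g) p p' q q' = g p q + g p' q + g p q' + g p' q' := by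
  unfold hh
  have hm := mem_HG_mk c g hg hpp hqq cp cp' cq cq'
  rcases zmod2_cases (g p q + g p' q + g p q' + g p' q') with h | h
  · rw [if_neg (by rw [hm, h]; decide), h]
  · rw [if_pos (hm.2 h), h]

theorem add_self2 (a : ZMod 2) : a + a = 0 := by
  revert a; decide

/-- the 5-set condition holds for `HG c g` -/
theorem HG_five (c : α → Bool) (g : α → α → ZMod 2) (hg : ∀ a b, g a b = g b a)
    (S : Finset α) (hS : S.card = 5) (h3 : ∀ v ∈ S, (S.filter (fun w => c v = c w)).card ≤ 3) :
    Even ((HG c g).filter (fun e => e ⊆ S)).card := by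
  have htot : (S.filter (fun w => c w = true)).card + (S.filter (fun w => ¬ c w = true)).card = 5 := by
    rw [Finset.card_filter_add_card_filter_not, hS]
  have hA : (S.filter (fun w => c w = true)).card ≤ 3 := by
    by_cases hne : (S.filter (fun w => c w = true)).Nonempty
    · obtain ⟨v, hv⟩ := hne
      rw [Finset.mem_filter] at hv
      refine le_trans (le_of_eq ?_) (h3 v hv.1)
      congr 1; apply Finset.filter_congr; intro w _; rw [hv.2]; exact eq_comm
    · rw [Finset.not_nonempty_iff_eq_empty] at hne; rw [hne]; simp
  have hB : (S.filter (fun w => ¬ c w = true)).card ≤ 3 := by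
    by_cases hne : (S.filter (fun w => ¬ c w = true)).Nonempty
    · obtain ⟨v, hv⟩ := hne
      rw [Finset.mem_filter] at hv
      refine le_trans (le_of_eq ?_) (h3 v hv.1)
      have hv2 : c v = false := by simpa using hv.2
      congr 1; apply Finset.filter_congr; intro w _; rw [hv2]
      cases c w <;> simp
    · rw [Finset.not_nonempty_iff_eq_empty] at hne; rw [hne]; simp
  -- generic finishing
  have fin : ∀ (b : Bool), (S.filter (fun w => c w = b)).card = 3 → (S.filter (fun w => ¬ c w = b)).card = 2 →
      Even ((HG c g).filter (fun e => e ⊆ S)).card := by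
    intro b k1 k2
    rw [Finset.card_eq_three] at k1
    rw [Finset.card_eq_two] at k2
    obtain ⟨i, j, k, hij, hik, hjk, e1⟩ := k1
    obtain ⟨x, y, hxy, e2⟩ := k2
    have m1 : ∀ z, z ∈ S.filter (fun w => c w = b) ↔ z = i ∨ z = j ∨ z = k := by
      intro z; rw [e1]; simp
    have m2 : ∀ z, z ∈ S.filter (fun w => ¬ c w = b) ↔ z = x ∨ z = y := by
      intro z; rw [e2]; simp
    simp only [Finset.mem_filter] at m1 m2
    have ci := ((m1 i).2 (Or.inl rfl)).2
    have cj := ((m1 j).2 (Or.inr (Or.inl rfl))).2
    have ck := ((m1 k).2 (Or.inr (Or.inr rfl))).2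
    have cx : c x = !b := by
      have := ((m2 x).2 (Or.inl rfl)).2; revert this; cases c x <;> cases b <;> simp
    have cy : c y = !b := by
      have := ((m2 y).2 (Or.inr rfl)).2; revert this; cases c y <;> cases b <;> simp
    have hSe : S = {i, j, k, x, y} := by
      ext z
      simp only [Finset.mem_insert, Finset.mem_singleton]
      constructor
      · intro hz
        by_cases hcz : c z = b
        · rcases (m1 z).1 ⟨hz, hcz⟩ with h | h | h <;> tauto
        · rcases (m2 z).1 ⟨hz, hcz⟩ with h | h <;> tauto
      · rintro (h | h | h | h | h)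
        · exact ((m1 z).2 (by tauto)).1
        · exact ((m1 z).2 (by tauto)).1
        · exact ((m1 z).2 (by tauto)).1
        · exact ((m2 z).2 (by tauto)).1
        · exact ((m2 z).2 (by tauto)).1
    rw [← ZMod.natCast_eq_zero_iff_even, hSe]
    rw [card_five c (HG c g) (HG_T c g) hij hjk hik hxy ci cj ck cx cy]
    rw [hh_HG c g hg hij hxy ci cj cx cy, hh_HG c g hg hjk hxy cj ck cx cy,
      hh_HG c g hg hik hxy ci ck cx cy]
    have e : g i x + g j x + g i y + g j y + (g j x + g k x + g j y + g k y) +
      (g i x + g k x + g i y + g k y) = (g i x + g i x) + (g j x + g j x) + (g k x + g k x) +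
      (g i y + g i y) + (g j y + g j y) + (g k y + g k y) := by ring
    rw [e]; simp only [add_self2]
  rcases Nat.lt_or_ge (S.filter (fun w => c w = true)).card 3 with hlt | hge
  · have k2 : (S.filter (fun w => c w = true)).card = 2 := by omega
    have k3 : (S.filter (fun w => ¬ c w = true)).card = 3 := by omega
    have f1 : S.filter (fun w => ¬ c w = true) = S.filter (fun w => c w = false) := by
      apply Finset.filter_congr; intro w _; simp
    have f2 : S.filter (fun w => c w = true) = S.filter (fun w => ¬ c w = false) := by
      apply Finset.filter_congr; intro w _; simp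
    exact fin false (by rw [← f1]; exact k3) (by rw [← f2]; exact k2)
  · exact fin true (by omega) (by omega)

end HG

end Pool.Agent.V11149.ThreeGraph
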