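import Pool.Agent.V11149.ThreeGraph2

set_option autoImplicit false

namespace Pool.Agent.V11149.ThreeGraph

/-- the big vertex set -/
abbrev Bt (n : ℕ) := Bool × Fin n × (Fin n → ZMod 2)

def cB {n : ℕ} (p : Bt n) : Bool := p.1

def gB {n : ℕ} (p q : Bt n) : ZMod 2 := p.2.2 q.2.1 + q.2.2 p.2.1

theorem gB_symm {n : ℕ} (p q : Bt n) : gB p q = gB q p := by
  unfold gB; ring

/-- the automorphism -/
def sig {n : ℕ} (s : Bool) (π : Equiv.Perm (Fin n)) (M : Bool → Fin n → Fin n → ZMod 2) :
    Equiv.Perm (Bt n) where
  toFun p := (xor p.1 s, π p.2.1, fun j => p.2.2 (π.symm j) + M p.1 p.2.1 (π.symm j))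
  invFun p := (xor p.1 s, π.symm p.2.1, fun j => p.2.2 (π j) + M (xor p.1 s) (π.symm p.2.1) j)
  left_inv := by
    rintro ⟨c, i, χ⟩
    simp only [Bool.xor_assoc, Bool.xor_self, Bool.xor_false, Equiv.symm_apply_apply]
    congr 2
    funext j
    have : ∀ a b : ZMod 2, a + b + b = a := by decide
    exact this _ _
  right_inv := by
    rintro ⟨c, i, χ⟩
    simp only [Bool.xor_assoc, Bool.xor_self, Bool.xor_false, Equiv.apply_symm_apply]
    congr 2
    funext j
    have : ∀ a b : ZMod 2, a + b + b = a := by decide
    exact this _ _

theorem gB_sig {n : ℕ} (s : Bool) (π : Equiv.Perm (Fin n)) (M : Bool → Fin n → Fin n → ZMod 2)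
    (p q : Bt n) : gB (sig s π M p) (sig s π M q) = gB p q + (M p.1 p.2.1 q.2.1 + M q.1 q.2.1 p.2.1) := by
  unfold gB sig
  simp only [Equiv.coe_fn_mk, Equiv.symm_apply_apply]
  ring

theorem T_map {α : Type*} [DecidableEq α] (c : α → Bool) (σ : Equiv.Perm α) (s : Bool)
    (hσ : ∀ x, c (σ x) = xor (c x) s) (e : Finset α) : T c (e.map σ.toEmbedding) ↔ T c e := by
  unfold T
  rw [Finset.card_map]
  apply and_congr_right
  intro _
  constructor
  · intro h v hv
    have := h (σ v) (Finset.mem_map_of_mem _ hv)
    rw [Finset.filter_map, Finset.card_map] at this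
    rw [← this]
    congr 1
    apply Finset.filter_congr
    intro w _
    simp only [Function.comp, Equiv.coe_toEmbedding, hσ]
    cases c v <;> cases c w <;> cases s <;> simp
  · intro h v hv
    rw [Finset.mem_map] at hv
    obtain ⟨u, hu, rfl⟩ := hv
    have := h u hu
    rw [Finset.filter_map, Finset.card_map]
    rw [← this]
    congr 1
    apply Finset.filter_congr
    intro w _
    simp only [Function.comp, Equiv.coe_toEmbedding, hσ]
    cases c u <;> cases c w <;> cases s <;> simp

theorem HG_map {α : Type*} [DecidableEq α] [Fintype α] (c : α → Bool) (g : α → α → ZMod 2)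
    (hg : ∀ a b, g a b = g b a) (σ : Equiv.Perm α) (s : Bool)
    (hσ : ∀ x, c (σ x) = xor (c x) s)
    (a b : α → ZMod 2)
    (hgσ : ∀ p q, c p = false → c q = true → g (σ p) (σ q) = g p q + (a p + b q)) (e : Finset α) :
    e ∈ HG c g ↔ e.map σ.toEmbedding ∈ HG c g := by
  by_cases hT : T c e
  · obtain ⟨p, p', q, q', hpp, hqq, cp, cp', cq, cq', rfl⟩ := (T_iff c e).1 hT
    have hmap : ({p, p', q, q'} : Finset α).map σ.toEmbedding = {σ p, σ p', σ q, σ q'} := by
      simp [Finset.map_insert]
    rw [hmap]
    rw [mem_HG_mk c g hg (b := false) hpp hqq cp cp' (by simpa using cq) (by simpa using cq')]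
    rw [mem_HG_mk c g hg (b := s) (fun h => hpp (σ.injective h)) (fun h => hqq (σ.injective h))
      (by rw [hσ, cp]; simp) (by rw [hσ, cp']; simp) (by rw [hσ, cq]; simp) (by rw [hσ, cq']; simp)]
    rw [hgσ p q cp cq, hgσ p' q cp' cq, hgσ p q' cp cq', hgσ p' q' cp' cq']
    have e1 : g p q + (a p + b q) + (g p' q + (a p' + b q)) + (g p q' + (a p + b q')) +
        (g p' q' + (a p' + b q')) = g p q + g p' q + g p q' + g p' q' + ((a p + a p) + (a p' + a p') +
        (b q + b q) + (b q' + b q')) := by ring
    rw [e1]; simp only [add_self2, add_zero]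
  · constructor
    · intro h; exact absurd (HG_T c g e h) hT
    · intro h; exact absurd ((T_map c σ s hσ e).1 (HG_T c g _ h)) hT

/-- splitting a cocycle -/
theorem split {α : Type*} (P Q : α → Prop) (E : α → α → ZMod 2)
    (hE : ∀ v v' w w', P v → P v' → Q w → Q w' → E v w + E v' w + E v w' + E v' w' = 0) :
    ∃ a b : α → ZMod 2, ∀ v w, P v → Q w → E v w = a v + b w := by
  by_cases hP : ∃ v0, P v0
  · by_cases hQ : ∃ w0, Q w0
    · obtain ⟨v0, hv0⟩ := hP
      obtain ⟨w0, hw0⟩ := hQ
      refine ⟨fun v => E v w0, fun w => E v0 w + E v0 w0, fun v w hv hw => ?_⟩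
      have := hE v v0 w w0 hv hv0 hw hw0
      have h2 : ∀ x y z t : ZMod 2, x + y + z + t = 0 → x = z + (y + t) := by decide
      exact h2 _ _ _ _ this
    · exact ⟨0, 0, fun v w _ hw => absurd ⟨w, hw⟩ hQ⟩
  · exact ⟨0, 0, fun v w hv _ => absurd ⟨v, hv⟩ hP⟩

/-- the graph function of a three-graph -/
theorem exists_F {n : ℕ} (c : Fin n → Bool) (H : Finset (Finset (Fin n))) (hT : ∀ e ∈ H, T c e)
    (h5 : ∀ S : Finset (Fin n), S.card = 5 → (∀ v ∈ S, (S.filter (fun w => c v = c w)).card ≤ 3) →
      Even (H.filter (fun e => e ⊆ S)).card) :
    ∃ F : Fin n → Fin n → ZMod 2, ∀ i i' k k', i ≠ i' → k ≠ k' → c i = false → c i' = false →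
      c k = true → c k' = true → hh H i i' k k' = F i k + F i' k + F i k' + F i' k' := by
  -- cocycle relation
  have coc : ∀ (b : Bool) (i j k x y : Fin n), i ≠ j → j ≠ k → i ≠ k → x ≠ y → c i = b → c j = b → c k = b →
      c x = !b → c y = !b → hh H i j x y + hh H j k x y + hh H i k x y = 0 := by
    intro b i j k x y hij hjk hik hxy ci cj ck cx cy
    have nix : ∀ u v, c u = b → c v = !b → u ≠ v := by
      rintro u v hu hv rfl; rw [hu] at hv; cases b <;> simp at hv
    rw [← card_five c H hT hij hjk hik hxy ci cj ck cx cy, ZMod.natCast_eq_zero_iff_even]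
    apply h5
    · have a1 : x ∉ ({y} : Finset (Fin n)) := by simpa using hxy
      have a2 : k ∉ ({x, y} : Finset (Fin n)) := by
        rw [Finset.mem_insert, Finset.mem_singleton]; rintro (h | h)
        · exact nix k x ck cx h
        · exact nix k y ck cy h
      have a3 : j ∉ ({k, x, y} : Finset (Fin n)) := by
        rw [Finset.mem_insert, Finset.mem_insert, Finset.mem_singleton]; rintro (h | h | h)
        · exact hjk h
        · exact nix j x cj cx h
        · exact nix j y cj cy h
      have a4 : i ∉ ({j, k, x, y} : Finset (Fin n)) := by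
        rw [Finset.mem_insert, Finset.mem_insert, Finset.mem_insert, Finset.mem_singleton]
        rintro (h | h | h | h)
        · exact hij h
        · exact hik h
        · exact nix i x ci cx h
        · exact nix i y ci cy h
      rw [Finset.card_insert_of_notMem a4, Finset.card_insert_of_notMem a3,
        Finset.card_insert_of_notMem a2, Finset.card_insert_of_notMem a1, Finset.card_singleton]
    · intro v _
      have key : ∀ b', (({i, j, k, x, y} : Finset (Fin n)).filter (fun w => c w = b')).card ≤ 3 := by
        intro b'
        by_cases hb : b' = b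
        · subst hb
          have : ({i, j, k, x, y} : Finset (Fin n)).filter (fun w => c w = b') ⊆ {i, j, k} := by
            intro z hz
            simp only [Finset.mem_filter, Finset.mem_insert, Finset.mem_singleton] at hz ⊢
            rcases hz with ⟨h | h | h | h | h, hc⟩
            · tauto
            · tauto
            · tauto
            · rw [h, cx] at hc; cases b' <;> simp at hc
            · rw [h, cy] at hc; cases b' <;> simp at hc
          exact (Finset.card_le_card this).trans Finset.card_le_three
        · have : ({i, j, k, x, y} : Finset (Fin n)).filter (fun w => c w = b') ⊆ {x, y} := by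
            intro z hz
            simp only [Finset.mem_filter, Finset.mem_insert, Finset.mem_singleton] at hz ⊢
            rcases hz with ⟨h | h | h | h | h, hc⟩
            · exact absurd (by rw [← hc, h, ci]) hb
            · exact absurd (by rw [← hc, h, cj]) hb
            · exact absurd (by rw [← hc, h, ck]) hb
            · tauto
            · tauto
          exact (Finset.card_le_card this).trans (Finset.card_le_two.trans (by norm_num))
      refine le_trans (le_of_eq ?_) (key (c v))
      congr 1; apply Finset.filter_congr; intro w _; exact eq_comm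
  by_cases hP : ∃ i0, c i0 = false
  · by_cases hQ : ∃ k0, c k0 = true
    · obtain ⟨i0, hi0⟩ := hP
      obtain ⟨k0, hk0⟩ := hQ
      -- extended indicator
      let h' : Fin n → Fin n → Fin n → Fin n → ZMod 2 := fun a b x y =>
        if a = b ∨ x = y then 0 else hh H a b x y
      have c1 : ∀ a b d x y, c a = false → c b = false → c d = false → c x = true → c y = true →
          h' a b x y + h' b d x y + h' a d x y = 0 := by
        intro a b d x y ca cb cd cx cy
        simp only [h']
        by_cases hxy : x = y
        · simp [hxy]
        · by_cases hab : a = b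
          · subst hab; simp [hxy, add_self2]
          · by_cases hbd : b = d
            · subst hbd; simp [hxy, hab, add_self2]
            · by_cases had : a = d
              · subst had
                simp only [hxy, hab, hbd, or_self, if_false, or_false, true_or, if_true, add_zero]
                rw [hh_swap1 H b a x y]; exact add_self2 _
              · simp only [hxy, hab, hbd, had, or_self, if_false]
                exact coc false a b d x y hab hbd had hxy ca cb cd (by simpa using cx) (by simpa using cy)
      have c2 : ∀ a b x y z, c a = false → c b = false → c x = true → c y = true → c z = true →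
          h' a b x y + h' a b y z + h' a b x z = 0 := by
        intro a b x y z ca cb cx cy cz
        simp only [h']
        by_cases hab : a = b
        · simp [hab]
        · by_cases hxy : x = y
          · subst hxy; simp [hab, add_self2]
          · by_cases hyz : y = z
            · subst hyz; simp [hxy, hab, add_self2]
            · by_cases hxz : x = z
              · subst hxz
                simp only [hxy, hab, hyz, or_self, if_false, or_false, or_true, if_true, add_zero]
                rw [hh_swap2 H a b y x]; exact add_self2 _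
              · simp only [hxy, hab, hyz, hxz, or_self, if_false]
                rw [hh_swap3 H a b x y, hh_swap3 H a b y z, hh_swap3 H a b x z]
                exact coc true x y z a b hxy hyz hxz hab cx cy cz (by simpa using ca) (by simpa using cb)
      refine ⟨fun i k => h' i0 i k0 k, ?_⟩
      intro i i' k k' hii hkk ci ci' ck ck'
      have t1 := c1 i0 i i' k0 k hi0 ci ci' hk0 ck
      have t2 := c1 i0 i i' k0 k' hi0 ci ci' hk0 ck'
      have t3 := c2 i i' k0 k k' ci ci' hk0 ck ck'
      have t4 : h' i i' k k' = hh H i i' k k' := by
        simp only [h', hii, hkk, or_self, if_false]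
      rw [← t4]
      change h' i i' k k' = h' i0 i k0 k + h' i0 i' k0 k + h' i0 i k0 k' + h' i0 i' k0 k'
      clear_value h'
      clear t4
      revert t1 t2 t3
      generalize h' i0 i k0 k = x1
      generalize h' i i' k0 k = x2
      generalize h' i0 i' k0 k = x3
      generalize h' i0 i k0 k' = x4
      generalize h' i i' k0 k' = x5
      generalize h' i0 i' k0 k' = x6
      generalize h' i i' k k' = x7
      revert x1 x2 x3 x4 x5 x6 x7
      decide
    · exact ⟨0, fun i i' k k' _ _ _ _ hk _ => absurd ⟨k, hk⟩ hQ⟩
  · exact ⟨0, fun i i' k k' _ _ hi _ _ _ => absurd ⟨i, hi⟩ hP⟩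

end Pool.Agent.V11149.ThreeGraph
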